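import Mathlib

open Filter Topology MeasureTheory Set
open scoped NNReal ZeroAtInfty

namespace Pool.Agent.R253.HQ

/-- The space `C₀([0,∞))`. -/
abbrev E := C₀(ℝ≥0, ℂ)

lemma norm_coe (g : E) (x : ℝ≥0) : ‖g x‖ ≤ ‖g‖ := by
  rw [← ZeroAtInftyContinuousMap.norm_toBCF_eq_norm]
  exact g.toBCF.norm_coe_le_norm x

lemma norm_le (g : E) {C : ℝ} (hC : 0 ≤ C) (h : ∀ x, ‖g x‖ ≤ C) : ‖g‖ ≤ C := by
  rw [← ZeroAtInftyContinuousMap.norm_toBCF_eq_norm]
  exact (BoundedContinuousFunction.norm_le hC).2 h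

/-- Weights: continuous functions increasing with slope at least one. -/
structure IsWeight (b : ℝ≥0 → ℝ) : Prop where
  cont : Continuous b
  incr : ∀ x s : ℝ≥0, (s : ℝ) ≤ b (x + s) - b x

/-- `t ^ 2` as a nonnegative real. -/
def sq (t : ℝ) : ℝ≥0 := ⟨t^2, sq_nonneg t⟩

@[simp] lemma coe_sq (t : ℝ) : ((sq t : ℝ≥0) : ℝ) = t^2 := rfl

lemma continuous_sq : Continuous sq := by
  unfold sq
  fun_prop

/-- The integrand. -/
noncomputable def ker (b : ℝ≥0 → ℝ) (g : ℝ≥0 → ℂ) (x : ℝ≥0) (t : ℝ) : ℂ :=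
  (Real.exp (b x - b (x + sq t)) : ℂ) * g (x + sq t)

/-- The phase. -/
noncomputable def cc : ℂ := Complex.exp (((3 * Real.pi / 4 : ℝ) : ℂ) * Complex.I)

lemma norm_cc : ‖cc‖ = 1 := by
  unfold cc
  exact Complex.norm_exp_ofReal_mul_I _

lemma ker_le {b : ℝ≥0 → ℝ} (hb : IsWeight b) (g : E) (x : ℝ≥0) (t : ℝ) :
    ‖ker b g x t‖ ≤ Real.exp (-1 * t^2) * ‖g (x + sq t)‖ := by
  unfold ker
  rw [norm_mul, Complex.norm_real, Real.norm_eq_abs, abs_of_pos (Real.exp_pos _)]
  apply mul_le_mul_of_nonneg_right _ (norm_nonneg _)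
  apply Real.exp_le_exp.2
  have := hb.incr x (sq t)
  rw [coe_sq] at this
  linarith

lemma ker_le' {b : ℝ≥0 → ℝ} (hb : IsWeight b) (g : E) (x : ℝ≥0) (t : ℝ) :
    ‖ker b g x t‖ ≤ Real.exp (-1 * t^2) * ‖g‖ :=
  (ker_le hb g x t).trans (mul_le_mul_of_nonneg_left (norm_coe g _) (Real.exp_pos _).le)

lemma continuous_ker {b : ℝ≥0 → ℝ} (hb : IsWeight b) (g : E) :
    Continuous (fun p : ℝ≥0 × ℝ => ker b g p.1 p.2) := by
  unfold ker
  have h1 : Continuous (fun p : ℝ≥0 × ℝ => p.1 + sq p.2) :=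
    continuous_fst.add (continuous_sq.comp continuous_snd)
  have h2 : Continuous (fun p : ℝ≥0 × ℝ => b p.1 - b (p.1 + sq p.2)) :=
    (hb.cont.comp continuous_fst).sub (hb.cont.comp h1)
  exact (Complex.continuous_ofReal.comp (Real.continuous_exp.comp h2)).mul
    ((map_continuous g).comp h1)

lemma integrable_bound (C : ℝ) : Integrable (fun t : ℝ => Real.exp (-1 * t^2) * C) :=
  (integrable_exp_neg_mul_sq one_pos).mul_const C

lemma integrable_ker {b : ℝ≥0 → ℝ} (hb : IsWeight b) (g : E) (x : ℝ≥0) :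
    Integrable (ker b g x) := by
  apply (integrable_bound ‖g‖).mono'
  · exact ((continuous_ker hb g).comp (Continuous.prodMk_right x)).aestronglyMeasurable
  · exact ae_of_all _ (ker_le' hb g x)

/-- The operator as a map. -/
noncomputable def Tfun (b : ℝ≥0 → ℝ) (hb : IsWeight b) (g : E) : E where
  toFun x := cc * ∫ t : ℝ, ker b g x t
  continuous_toFun := by
    apply continuous_const.mul
    apply continuous_of_dominated (bound := fun t => Real.exp (-1 * t^2) * ‖g‖)
    · exact fun x => (integrable_ker hb g x).aestronglyMeasurable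
    · exact fun x => ae_of_all _ (ker_le' hb g x)
    · exact integrable_bound _
    · exact ae_of_all _ fun t => (continuous_ker hb g).comp (Continuous.prodMk_left t)
  zero_at_infty' := by
    rw [cocompact_eq_atTop]
    have h : Tendsto (fun x : ℝ≥0 => ∫ t : ℝ, ker b g x t) atTop (𝓝 (∫ t : ℝ, (0:ℂ))) := by
      apply tendsto_integral_filter_of_dominated_convergence
        (fun t => Real.exp (-1 * t^2) * ‖g‖)
      · exact Eventually.of_forall fun x => (integrable_ker hb g x).aestronglyMeasurable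
      · exact Eventually.of_forall fun x => ae_of_all _ (ker_le' hb g x)
      · exact integrable_bound _
      · refine ae_of_all _ fun t => ?_
        apply squeeze_zero_norm (a := fun x => Real.exp (-1 * t^2) * ‖g (x + sq t)‖)
          (fun x => ker_le hb g x t)
        have h1 : Tendsto (fun x : ℝ≥0 => g (x + sq t)) atTop (𝓝 0) := by
          have h2 := g.zero_at_infty'
          rw [cocompact_eq_atTop] at h2
          exact h2.comp (tendsto_atTop_mono (fun x => le_self_add) tendsto_id)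
        have h3 := h1.norm.const_mul (Real.exp (-1 * t^2))
        rw [norm_zero, mul_zero] at h3
        exact h3
    simpa using h.const_mul cc

lemma Tfun_apply (b : ℝ≥0 → ℝ) (hb : IsWeight b) (g : E) (x : ℝ≥0) :
    Tfun b hb g x = cc * ∫ t : ℝ, ker b g x t := rfl

lemma ker_add (b : ℝ≥0 → ℝ) (g h : E) (x : ℝ≥0) (t : ℝ) :
    ker b (g + h : E) x t = ker b g x t + ker b h x t := by
  unfold ker
  rw [ZeroAtInftyContinuousMap.add_apply, mul_add]

lemma ker_smul (b : ℝ≥0 → ℝ) (r : ℂ) (g : E) (x : ℝ≥0) (t : ℝ) :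
    ker b (r • g : E) x t = r * ker b g x t := by
  unfold ker
  rw [ZeroAtInftyContinuousMap.smul_apply, smul_eq_mul]
  ring

/-- General pointwise bound. -/
lemma Tfun_bound {b : ℝ≥0 → ℝ} (hb : IsWeight b) (g : E) (x : ℝ≥0) {F : ℝ → ℝ}
    (hF : Integrable F) (h : ∀ t, ‖ker b g x t‖ ≤ F t) : ‖Tfun b hb g x‖ ≤ ∫ t, F t := by
  rw [Tfun_apply, norm_mul, norm_cc, one_mul]
  exact norm_integral_le_of_norm_le hF (ae_of_all _ h)

/-- The operator `T_b g (x) = c ∫ exp (b x - b (x + t²)) g (x + t²) dt` on `C₀([0,∞))`. -/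
noncomputable def TT (b : ℝ≥0 → ℝ) (hb : IsWeight b) : E →L[ℂ] E :=
  LinearMap.mkContinuous
    { toFun := Tfun b hb
      map_add' := by
        intro g h
        ext x
        rw [ZeroAtInftyContinuousMap.add_apply, Tfun_apply, Tfun_apply, Tfun_apply]
        simp only [ker_add]
        rw [integral_add (integrable_ker hb g x) (integrable_ker hb h x), mul_add]
      map_smul' := by
        intro r g
        ext x
        rw [RingHom.id_apply, ZeroAtInftyContinuousMap.smul_apply, Tfun_apply, Tfun_apply]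
        simp only [ker_smul]
        rw [integral_const_mul, smul_eq_mul]
        ring }
    (∫ t : ℝ, Real.exp (-1 * t^2))
    (by
      intro g
      apply norm_le
      · exact mul_nonneg (integral_nonneg fun t => (Real.exp_pos _).le) (norm_nonneg _)
      · intro x
        refine (Tfun_bound hb g x (integrable_bound ‖g‖) (ker_le' hb g x)).trans ?_
        rw [integral_mul_const])

lemma TT_apply (b : ℝ≥0 → ℝ) (hb : IsWeight b) (g : E) (x : ℝ≥0) :
    TT b hb g x = cc * ∫ t : ℝ, ker b g x t := rfl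

/-- Quasinilpotency estimate. -/
lemma TT_pow_bound {b : ℝ≥0 → ℝ} (hb : IsWeight b) {h : ℝ≥0 → ℝ} {C M : ℝ} (hC : 0 < C)
    (hM : ∀ x, h x ≤ M)
    (hs : ∀ x s : ℝ≥0, C * s ≤ (b (x + s) + h (x + s)) - (b x + h x)) (n : ℕ) (g : E) (x : ℝ≥0) :
    ‖((TT b hb)^n) g x‖ ≤ Real.sqrt (Real.pi / C) ^ n * (Real.exp M * ‖g‖) * Real.exp (-h x) := by
  induction n generalizing x with
  | zero =>
    simp only [pow_zero, one_mul]
    change ‖g x‖ ≤ _
    have h1 := norm_coe g x
    have h2 : 1 ≤ Real.exp M * Real.exp (-h x) := by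
      rw [← Real.exp_add]
      exact Real.one_le_exp (by linarith [hM x])
    calc ‖g x‖ ≤ 1 * ‖g‖ := by rw [one_mul]; exact h1
      _ ≤ (Real.exp M * Real.exp (-h x)) * ‖g‖ := mul_le_mul_of_nonneg_right h2 (norm_nonneg _)
      _ = _ := by ring
  | succ n ih =>
    rw [pow_succ', mul_apply_eq_comp, pow_succ']
    change ‖Tfun b hb _ x‖ ≤ _
    set G := ((TT b hb)^n) g
    set A := Real.sqrt (Real.pi / C) ^ n * (Real.exp M * ‖g‖)
    have h1 : ∀ t, ‖ker b G x t‖ ≤ Real.exp (-C * t^2) * (A * Real.exp (-h x)) := by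
      intro t
      unfold ker
      rw [norm_mul, Complex.norm_real, Real.norm_eq_abs, abs_of_pos (Real.exp_pos _)]
      calc Real.exp (b x - b (x + sq t)) * ‖G (x + sq t)‖
          ≤ Real.exp (b x - b (x + sq t)) * (A * Real.exp (-h (x + sq t))) :=
            mul_le_mul_of_nonneg_left (ih _) (Real.exp_pos _).le
        _ = A * Real.exp (b x - b (x + sq t) - h (x + sq t)) := by
            rw [sub_eq_add_neg _ (h _), Real.exp_add]; ring
        _ ≤ A * Real.exp (-C * t^2 + -h x) := by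
            have hA : 0 ≤ A := by positivity
            apply mul_le_mul_of_nonneg_left _ hA
            apply Real.exp_le_exp.2
            have := hs x (sq t)
            rw [coe_sq] at this
            linarith
        _ = _ := by rw [Real.exp_add]; ring
    refine (Tfun_bound hb G x ((integrable_exp_neg_mul_sq hC).mul_const _) h1).trans ?_
    rw [integral_mul_const, integral_gaussian]
    apply le_of_eq
    ring

end Pool.Agent.R253.HQ
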