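import Pool.Agent.R253.HQ.Eig

open Filter Topology MeasureTheory Set
open scoped NNReal ZeroAtInfty

namespace Pool.Agent.R253.HQ

open Classical in
/-- total version of `uu`. -/
noncomputable def UU {b : ℝ≥0 → ℝ} {β M : ℝ} (h : IsLin b β M) (μ : ℂ) : E :=
  if hμ : β < μ.re then uu h μ hμ else 0

lemma UU_eq {b : ℝ≥0 → ℝ} {β M : ℝ} (h : IsLin b β M) {μ : ℂ} (hμ : β < μ.re) :
    UU h μ = uu h μ hμ := by
  unfold UU
  rw [dif_pos hμ]

lemma hasDerivAt_UU {b : ℝ≥0 → ℝ} {β M : ℝ} (h : IsLin b β M) {μ : ℂ} (hμ : β < μ.re) :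
    HasDerivAt (UU h) (vv h μ hμ) μ := by
  rw [hasDerivAt_iff_isLittleO_nhds_zero]
  set η := μ.re - β with hη
  have hη0 : 0 < η := by linarith
  have hbig : (fun z : ℂ => UU h (μ + z) - UU h μ - z • vv h μ hμ) =O[𝓝 0]
      (fun z : ℂ => ‖z‖^2) := by
    apply Asymptotics.IsBigO.of_bound (8/η^2)
    filter_upwards [Metric.ball_mem_nhds (0:ℂ) (half_pos hη0)] with z hz
    rw [mem_ball_zero_iff] at hz
    have hz1 : β < (μ + z).re := by
      rw [Complex.add_re]
      have h1 := Complex.abs_re_le_norm z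
      have h2 := neg_abs_le z.re
      linarith
    rw [UU_eq h hμ, UU_eq h hz1]
    have hC : 0 ≤ 8/η^2 * ‖‖z‖^2‖ := by positivity
    apply norm_le _ hC
    intro x
    rw [ZeroAtInftyContinuousMap.sub_apply, ZeroAtInftyContinuousMap.sub_apply,
      ZeroAtInftyContinuousMap.smul_apply, uu_apply, uu_apply, vv_apply, smul_eq_mul]
    have e1 : uf b (μ + z) x - uf b μ x - z * (-((x:ℝ):ℂ) * uf b μ x) =
        uf b μ x * (Complex.exp (-(z * (x:ℝ))) - ∑ m ∈ Finset.range 2, (-(z * (x:ℝ)))^m / (m.factorial : ℂ)) := by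
      have : uf b (μ + z) x = uf b μ x * Complex.exp (-(z * (x:ℝ))) := by
        unfold uf
        rw [← Complex.exp_add]
        congr 1
        ring
      rw [this]
      simp [Finset.sum_range_succ]
      ring
    rw [e1, norm_mul]
    have e2 := Complex.norm_exp_sub_sum_le_norm_mul_exp (-(z * (x:ℝ))) 2
    have e3 : ‖-(z * ((x:ℝ):ℂ))‖ = ‖z‖ * x := by
      rw [norm_neg, norm_mul, Complex.norm_real, Real.norm_eq_abs, abs_of_nonneg x.coe_nonneg]
    rw [e3] at e2
    have hx0 := x.coe_nonneg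
    have e4 : Real.exp (-(μ.re - β) * x) * Real.exp (‖z‖ * x) ≤ Real.exp (-(η/2 * x)) := by
      rw [← Real.exp_add]
      apply Real.exp_le_exp.2
      rw [← hη]
      nlinarith
    have e5 : (x:ℝ)^2 * Real.exp (-(η/2 * x)) ≤ 8/η^2 := by
      have h1 := Real.quadratic_le_exp_of_nonneg (x := η/2 * x) (by positivity)
      rw [Real.exp_neg, ← div_eq_mul_inv, div_le_div_iff₀ (Real.exp_pos _) (by positivity)]
      nlinarith
    calc ‖uf b μ x‖ * _ ≤ Real.exp (-(μ.re - β) * x) * ((‖z‖ * x)^2 * Real.exp (‖z‖ * x)) :=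
          mul_le_mul (norm_uf h μ x) e2 (norm_nonneg _) (Real.exp_pos _).le
      _ = (‖z‖ * x)^2 * (Real.exp (-(μ.re - β) * x) * Real.exp (‖z‖ * x)) := by ring
      _ ≤ (‖z‖ * x)^2 * Real.exp (-(η/2 * x)) :=
          mul_le_mul_of_nonneg_left e4 (by positivity)
      _ = ‖z‖^2 * ((x:ℝ)^2 * Real.exp (-(η/2 * x))) := by ring
      _ ≤ ‖z‖^2 * (8/η^2) := mul_le_mul_of_nonneg_left e5 (by positivity)
      _ = 8/η^2 * ‖‖z‖^2‖ := by rw [norm_pow, norm_norm]; ring
  exact hbig.trans_isLittleO (Asymptotics.isLittleO_norm_pow_id one_lt_two)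

/-- a functional vanishing on an open set of the `u_μ` is zero. -/
lemma eq_zero_of_open {b : ℝ≥0 → ℝ} {β M : ℝ} (h : IsLin b β M) {G : Set ℂ} (hG : IsOpen G)
    (hGβ : ∀ μ ∈ G, β < μ.re) {μ₀ : ℂ} (hμ₀ : μ₀ ∈ G) (l : E →L[ℂ] ℂ)
    (hl : ∀ μ ∈ G, l (UU h μ) = 0) : l = 0 := by
  have h1 : DifferentiableOn ℂ (fun μ => l (UU h μ)) {μ : ℂ | β < μ.re} := by
    intro μ hμ
    exact (l.hasFDerivAt.comp_hasDerivAt μ (hasDerivAt_UU h hμ)).differentiableAt.differentiableWithinAt
  have hopen : IsOpen {μ : ℂ | β < μ.re} := isOpen_lt continuous_const Complex.continuous_re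
  have h2 := h1.analyticOnNhd hopen
  have h3 : Set.EqOn (fun μ => l (UU h μ)) 0 {μ : ℂ | β < μ.re} := by
    apply h2.eqOn_zero_of_preconnected_of_eventuallyEq_zero
      (convex_halfSpace_re_gt β).isPreconnected (hGβ _ hμ₀)
    filter_upwards [hG.mem_nhds hμ₀] with μ hμ
    exact hl μ hμ
  have h4 : ∀ v ∈ Submodule.span ℂ {w : E | ∃ (j : ℕ) (hj : β < (((β + j + 1 : ℝ) : ℂ)).re),
      w = uu h ((β + j + 1 : ℝ) : ℂ) hj}, l v = 0 := by
    intro v hv
    induction hv using Submodule.span_induction with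
    | mem x hx =>
      obtain ⟨j, hj, rfl⟩ := hx
      have := h3 hj
      simp only [Pi.zero_apply] at this
      rwa [UU_eq h hj] at this
    | zero => simp
    | add x y _ _ hx hy => rw [map_add, hx, hy, add_zero]
    | smul a x _ hx => rw [map_smul, hx, smul_zero]
  ext g
  rw [zero_apply, ← norm_eq_zero]
  by_contra hne
  have hpos : 0 < ‖l g‖ := lt_of_le_of_ne (norm_nonneg _) (Ne.symm hne)
  obtain ⟨N, hN0, hN⟩ : ∃ N : ℝ, 0 ≤ N ∧ ∀ y, ‖l y‖ ≤ N * ‖y‖ := ⟨‖l‖, norm_nonneg l, l.le_opNorm⟩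
  obtain ⟨v, hv, hgv⟩ := dense_real h g (ε := ‖l g‖ / (2 * (N + 1))) (by positivity)
  have h5 : ‖l g‖ ≤ N * ‖g - v‖ := by
    have : l g = l (g - v) := by rw [map_sub, h4 v hv, sub_zero]
    rw [this]
    exact hN _
  have h6 : N * ‖g - v‖ ≤ N * (‖l g‖ / (2 * (N + 1))) :=
    mul_le_mul_of_nonneg_left hgv hN0
  have h7 : N * (‖l g‖ / (2 * (N + 1))) ≤ ‖l g‖ / 2 := by
    rw [mul_div_assoc', div_le_div_iff₀ (by positivity) (by positivity)]
    nlinarith [norm_nonneg (l g)]
  linarith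

lemma continuousAt_lam {μ : ℂ} (hμ : 0 < μ.re) : ContinuousAt lam μ := by
  unfold lam
  have h0 : μ ≠ 0 := by rintro rfl; simp at hμ
  apply continuousAt_const.mul
  apply ContinuousAt.comp (g := fun z : ℂ => z ^ (1/2 : ℂ)) (f := fun μ => (Real.pi : ℂ) / μ)
  · apply continuousAt_cpow_const
    left
    rw [Complex.div_re]
    have h1 : 0 < Complex.normSq μ := Complex.normSq_pos.2 h0
    simp only [Complex.ofReal_re, Complex.ofReal_im, zero_mul, zero_div, add_zero]
    have := Real.pi_pos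
    positivity
  · exact continuousAt_const.div continuousAt_id h0

lemma exists_expanding {β : ℝ} (hβ : 1 ≤ β) : ∃ μ : ℂ, β < μ.re ∧ 1 < ‖1 + lam μ‖ := by
  have hπ := Real.pi_pos
  have hπ3 := Real.pi_gt_three
  set a : ℝ := Real.log (Real.pi / (2 * β^2)) with ha
  have hb0 : 0 < β := by linarith
  set δ : ℝ := 1 / (2 * β) with hδ
  have hδ0 : 0 < δ := by positivity
  have hδ1 : δ ≤ 1/2 := by
    rw [hδ]
    exact one_div_le_one_div_of_le (by norm_num) (by linarith)
  set L : ℂ := (a : ℂ) + ((2 * δ - Real.pi/2 : ℝ) : ℂ) * Complex.I with hL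
  refine ⟨Real.pi * Complex.exp (-L), ?_, ?_⟩
  · rw [Complex.re_ofReal_mul, Complex.exp_re]
    have h1 : (-L).re = -a := by simp [hL]
    have h2 : (-L).im = -(2 * δ - Real.pi/2) := by simp [hL]
    rw [h1, h2, Real.cos_neg, Real.cos_sub_pi_div_two, ha, ← Real.log_inv, Real.exp_log (by positivity)]
    have h3 : 2 / Real.pi * (2 * δ) ≤ Real.sin (2 * δ) := Real.mul_le_sin (by positivity) (by linarith)
    have h4 : 2 * δ = 1 / β := by rw [hδ]; field_simp
    rw [h4] at h3 ⊢
    have h5 : Real.pi * ((Real.pi / (2 * β^2))⁻¹ * Real.sin (1/β)) = 2 * β^2 * Real.sin (1/β) := by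
      field_simp
    rw [h5]
    have h6 : 2 * β^2 * (2 / Real.pi * (1/β)) = 4/Real.pi * β := by field_simp; ring
    have h7 : 2 * β^2 * (2 / Real.pi * (1/β)) ≤ 2 * β^2 * Real.sin (1/β) :=
      mul_le_mul_of_nonneg_left h3 (by positivity)
    have h8 : 1 < 4/Real.pi := by
      rw [lt_div_iff₀ hπ]
      linarith [Real.pi_lt_four]
    nlinarith
  · have h1 : (Real.pi : ℂ) / (Real.pi * Complex.exp (-L)) = Complex.exp L := by
      rw [Complex.exp_neg]
      have : (Real.pi : ℂ) ≠ 0 := Complex.ofReal_ne_zero.2 hπ.ne'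
      field_simp
    have h2 : lam (Real.pi * Complex.exp (-L)) =
        ((Real.exp (a/2) : ℝ) : ℂ) * Complex.exp (((Real.pi/2 + δ : ℝ) : ℂ) * Complex.I) := by
      unfold lam cc
      rw [h1, Complex.cpow_def_of_ne_zero (Complex.exp_ne_zero _), Complex.log_exp, Complex.ofReal_exp,
        ← Complex.exp_add, ← Complex.exp_add]
      · congr 1
        rw [hL]
        push_cast
        ring
      · simp only [hL, Complex.add_im, Complex.ofReal_im, Complex.mul_im, Complex.ofReal_re,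
          Complex.I_im, Complex.I_re, mul_one, mul_zero, add_zero, zero_add]
        linarith
      · simp only [hL, Complex.add_im, Complex.ofReal_im, Complex.mul_im, Complex.ofReal_re,
          Complex.I_im, Complex.I_re, mul_one, mul_zero, add_zero, zero_add]
        linarith
    set κ := Real.exp (a/2) with hκ
    have hκ0 : 0 < κ := Real.exp_pos _
    have hκ2 : κ^2 = Real.pi / (2 * β^2) := by
      rw [hκ, ← Real.exp_nat_mul]
      push_cast
      rw [mul_div_cancel₀ _ (by norm_num : (2:ℝ) ≠ 0), ha, Real.exp_log (by positivity)]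
    have h3 : 2 * Real.sin δ < κ := by
      have h4 : Real.sin δ ≤ δ := (Real.sin_lt hδ0).le
      have h5 : (2 * δ)^2 < κ^2 := by
        rw [hκ2, hδ]
        have : (2 * (1 / (2 * β)))^2 = 1 / β^2 := by field_simp
        rw [this, div_lt_div_iff₀ (by positivity) (by positivity)]
        nlinarith [pow_pos hb0 2]
      have h6 : 2 * δ < κ := lt_of_pow_lt_pow_left₀ 2 hκ0.le h5
      linarith
    have h4 : ‖1 + lam (Real.pi * Complex.exp (-L))‖^2 = 1 - 2 * κ * Real.sin δ + κ^2 := by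
      rw [h2, ← Complex.normSq_eq_norm_sq, Complex.normSq_apply]
      simp only [Complex.add_re, Complex.one_re, Complex.re_ofReal_mul, Complex.exp_ofReal_mul_I_re,
        Complex.add_im, Complex.one_im, Complex.im_ofReal_mul, Complex.exp_ofReal_mul_I_im, zero_add]
      have e1 : Real.cos (Real.pi/2 + δ) = - Real.sin δ := by
        rw [add_comm, Real.cos_add_pi_div_two]
      have e2 : Real.sin (Real.pi/2 + δ) = Real.cos δ := by
        rw [add_comm, Real.sin_add_pi_div_two]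
      rw [e1, e2]
      nlinarith [Real.sin_sq_add_cos_sq δ]
    have h5 : 1 < ‖1 + lam (Real.pi * Complex.exp (-L))‖^2 := by
      rw [h4]
      nlinarith
    by_contra hc
    push Not at hc
    have := pow_le_one₀ (n := 2) (norm_nonneg _) hc
    linarith

lemma contracting_real {m : ℝ} (hm : 2 ≤ m) : ‖1 + lam (m : ℂ)‖ < 1 := by
  have hπ := Real.pi_pos
  have h0 : 0 < Real.pi / m := by positivity
  set r : ℝ := (Real.pi / m) ^ (1/2 : ℝ) with hr
  have hr0 : 0 < r := Real.rpow_pos_of_pos h0 _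
  have hr2 : r^2 = Real.pi / m := by
    rw [hr, ← Real.rpow_natCast, ← Real.rpow_mul h0.le]
    norm_num
  have h1 : lam (m : ℂ) = (r : ℂ) * Complex.exp (((3 * Real.pi / 4 : ℝ) : ℂ) * Complex.I) := by
    unfold lam cc
    rw [hr, Complex.ofReal_cpow h0.le]
    push_cast
    ring
  have hs : Real.cos (3 * Real.pi / 4) = -(Real.sqrt 2 / 2) := by
    rw [show 3 * Real.pi / 4 = Real.pi - Real.pi / 4 by ring, Real.cos_pi_sub, Real.cos_pi_div_four]
  have h4 : ‖1 + lam (m:ℂ)‖^2 = 1 - Real.sqrt 2 * r + r^2 := by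
    rw [h1, ← Complex.normSq_eq_norm_sq, Complex.normSq_apply]
    simp only [Complex.add_re, Complex.one_re, Complex.re_ofReal_mul, Complex.exp_ofReal_mul_I_re,
      Complex.add_im, Complex.one_im, Complex.im_ofReal_mul, Complex.exp_ofReal_mul_I_im, zero_add]
    have e1 := Real.sin_sq_add_cos_sq (3 * Real.pi / 4)
    rw [hs] at e1 ⊢
    nlinarith
  have h2 : r < Real.sqrt 2 := by
    apply Real.lt_sqrt_of_sq_lt
    rw [hr2, div_lt_iff₀ (by linarith)]
    linarith [Real.pi_lt_four]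
  have h5 : ‖1 + lam (m:ℂ)‖^2 < 1 := by
    rw [h4]
    nlinarith
  by_contra hc
  push Not at hc
  have := one_le_pow₀ (n := 2) hc
  linarith

end Pool.Agent.R253.HQ
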