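import Mathlib

open Filter Topology MeasureTheory Set
open scoped ComplexConjugate

namespace Pool.Agent.R253.HQ

/-- Continuous with exponential decay on the half line. -/
structure Good (f : ℝ → ℂ) (A : ℝ) : Prop where
  cont : Continuous f
  bd : ∀ x, 0 ≤ x → ‖f x‖ ≤ A * Real.exp (-x)

/-- Lebesgue measure on `(0,∞)` -/
noncomputable abbrev nu : Measure ℝ := volume.restrict (Ioi 0)

lemma Good.nonneg {f : ℝ → ℂ} {A : ℝ} (hf : Good f A) : 0 ≤ A := by
  have := (norm_nonneg _).trans (hf.bd 0 le_rfl)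
  simpa using this

lemma int_e : Integrable (fun x : ℝ => Real.exp (-x)) nu := integrableOn_exp_neg_Ioi 0

lemma Good.integrable {f : ℝ → ℂ} {A : ℝ} (hf : Good f A) : Integrable f nu := by
  apply (int_e.const_mul A).mono' hf.cont.aestronglyMeasurable
  filter_upwards [ae_restrict_mem measurableSet_Ioi] with x hx
  exact hf.bd x (le_of_lt hx)

lemma Good.mul {f : ℝ → ℂ} {A : ℝ} (hf : Good f A) (l : ℝ) :
    Good (fun x => f x * Complex.exp (-(l * x * Complex.I))) A := by
  constructor
  · exact hf.cont.mul (Complex.continuous_exp.comp (by fun_prop))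
  · intro x hx
    rw [norm_mul, show -((l:ℂ) * x * Complex.I) = ((-(l * x) : ℝ) : ℂ) * Complex.I by push_cast; ring,
      Complex.norm_exp_ofReal_mul_I, mul_one]
    exact hf.bd x hx

lemma integral_shift (h : ℝ → ℂ) (x : ℝ) :
    ∫ s in Ioi 0, h (x + s) = ∫ y in Ioi x, h y := by
  rw [← integral_indicator measurableSet_Ioi, ← integral_indicator measurableSet_Ioi,
    ← integral_add_left_eq_self (fun y => (Ioi x).indicator h y) x]
  congr 1
  ext s
  by_cases hs : 0 < s
  · rw [indicator_of_mem (by exact hs), indicator_of_mem (by simpa using hs)]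
  · rw [indicator_of_notMem (by exact hs), indicator_of_notMem (by simpa using hs)]

/-- accretivity of the Volterra operator -/
lemma accretive {h : ℝ → ℂ} {A : ℝ} (hh : Good h A) :
    0 ≤ (∫ x in Ioi 0, conj (h x) * ∫ s in Ioi 0, h (x + s)).re := by
  set H : ℝ → ℂ := fun x => (∫ y in Ioi 0, h y) - ∫ y in (0:ℝ)..x, h y with hH
  have hHeq : ∀ x, 0 ≤ x → ∫ s in Ioi 0, h (x + s) = H x := by
    intro x hx
    rw [integral_shift, hH]
    have h1 : IntegrableOn h (Ioi 0) := hh.integrable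
    have := intervalIntegral.integral_interval_add_Ioi h1 (h1.mono_set (Ioi_subset_Ioi hx))
    dsimp only
    rw [← this]
    ring
  have hHd : ∀ x, HasDerivAt H (-h x) x := by
    intro x
    have := (hh.cont.integral_hasStrictDerivAt 0 x).hasDerivAt.const_sub (∫ y in Ioi 0, h y)
    exact this
  have hHt : Tendsto H atTop (𝓝 0) := by
    have := (intervalIntegral_tendsto_integral_Ioi 0 hh.integrable tendsto_id).const_sub
      (∫ y in Ioi 0, h y)
    rwa [sub_self] at this
  have hHb : ∀ x, 0 ≤ x → ‖H x‖ ≤ A := by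
    intro x hx
    rw [← hHeq x hx]
    have h1 : ‖∫ s in Ioi 0, h (x + s)‖ ≤ ∫ s in Ioi 0, A * Real.exp (-s) := by
      apply norm_integral_le_of_norm_le (int_e.const_mul A)
      filter_upwards [ae_restrict_mem measurableSet_Ioi] with s hs
      have hs' : 0 < s := hs
      refine (hh.bd (x + s) (by linarith)).trans ?_
      apply mul_le_mul_of_nonneg_left _ hh.nonneg
      exact Real.exp_le_exp.2 (by linarith)
    rw [integral_const_mul, integral_exp_neg_Ioi_zero, mul_one] at h1
    exact h1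
  have hHc : Continuous H := continuous_iff_continuousAt.2 fun x => (hHd x).continuousAt
  have hd : ∀ x, HasDerivAt (fun x => ‖H x‖^2) (-2 * (conj (h x) * H x).re) x := by
    intro x
    have := (hHd x).norm_sq
    convert this using 1
    rw [Complex.inner]
    simp only [Complex.mul_re, Complex.conj_re, Complex.conj_im, Complex.neg_re, Complex.neg_im]
    ring
  have hint : Integrable (fun x => conj (h x) * H x) nu := by
    apply (int_e.const_mul (A * A)).mono'
    · exact ((Complex.continuous_conj.comp hh.cont).mul hHc).aestronglyMeasurable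
    · filter_upwards [ae_restrict_mem measurableSet_Ioi] with x hx
      rw [norm_mul, Complex.norm_conj]
      have hx' : 0 ≤ x := le_of_lt hx
      calc ‖h x‖ * ‖H x‖ ≤ (A * Real.exp (-x)) * A :=
            mul_le_mul (hh.bd x hx') (hHb x hx') (norm_nonneg _)
              (mul_nonneg hh.nonneg (Real.exp_pos _).le)
        _ = A * A * Real.exp (-x) := by ring
  have hint' : IntegrableOn (fun x => -2 * (conj (h x) * H x).re) (Ioi 0) := by
    have := (hint.re).const_mul (-2)
    exact this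
  have h1 := integral_Ioi_of_hasDerivAt_of_tendsto' (a := 0) (m := 0) (fun x _ => hd x) hint'
    (by simpa using (hHt.norm.pow 2))
  have h2 : ∫ x in Ioi 0, conj (h x) * ∫ s in Ioi 0, h (x + s) = ∫ x in Ioi 0, conj (h x) * H x := by
    apply setIntegral_congr_fun measurableSet_Ioi
    intro x hx
    dsimp only
    rw [hHeq x (le_of_lt hx)]
  rw [h2]
  have h3 : (∫ x in Ioi 0, conj (h x) * H x).re = ∫ x in Ioi 0, (conj (h x) * H x).re :=
    (integral_re hint).symm
  rw [h3]
  rw [integral_const_mul] at h1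
  have : 0 ≤ ‖H 0‖^2 := by positivity
  linarith

/-- the autocorrelation -/
noncomputable def ph (f : ℝ → ℂ) (s : ℝ) : ℂ := ∫ x in Ioi 0, conj (f x) * f (x + s)

lemma bound2 {f : ℝ → ℂ} {A : ℝ} (hf : Good f A) {x s : ℝ} (hx : 0 < x) (hs : 0 ≤ s) :
    ‖conj (f x) * f (x + s)‖ ≤ (A * Real.exp (-x)) * (A * Real.exp (-s)) := by
  rw [norm_mul, Complex.norm_conj]
  apply mul_le_mul (hf.bd x hx.le) _ (norm_nonneg _) (mul_nonneg hf.nonneg (Real.exp_pos _).le)
  refine (hf.bd (x + s) (by linarith)).trans ?_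
  apply mul_le_mul_of_nonneg_left _ hf.nonneg
  exact Real.exp_le_exp.2 (by linarith)

lemma fst_pos (μ : Measure ℝ) [SFinite μ] : ∀ᵐ p ∂(nu.prod μ), 0 < p.1 :=
  Measure.quasiMeasurePreserving_fst.ae (ae_restrict_mem measurableSet_Ioi)

lemma snd_pos (μ : Measure ℝ) [SFinite μ] : ∀ᵐ p ∂(μ.prod nu), 0 < p.2 :=
  Measure.quasiMeasurePreserving_snd.ae (ae_restrict_mem measurableSet_Ioi)

lemma int_ph {f : ℝ → ℂ} {A : ℝ} (hf : Good f A) (l : ℝ) :
    Integrable (fun p : ℝ × ℝ => conj (f p.2) * f (p.2 + p.1) * Complex.exp (-(l * p.1 * Complex.I)))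
      (nu.prod nu) := by
  apply ((int_e.const_mul A).mul_prod (int_e.const_mul A)).mono'
  · have hc := hf.cont
    have : Continuous (fun p : ℝ × ℝ => conj (f p.2) * f (p.2 + p.1) * Complex.exp (-(l * p.1 * Complex.I))) := by
      apply Continuous.mul
      · exact (Complex.continuous_conj.comp (hc.comp continuous_snd)).mul
          (hc.comp (continuous_snd.add continuous_fst))
      · exact Complex.continuous_exp.comp (by fun_prop)
    exact this.aestronglyMeasurable
  · filter_upwards [fst_pos nu, snd_pos nu] with p h1 h2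
    rw [norm_mul, show -((l:ℂ) * p.1 * Complex.I) = ((-(l * p.1) : ℝ) : ℂ) * Complex.I by
      push_cast; ring, Complex.norm_exp_ofReal_mul_I, mul_one, mul_comm (A * Real.exp (-p.1))]
    exact bound2 hf h2 h1.le

lemma ph_norm {f : ℝ → ℂ} {A : ℝ} (hf : Good f A) {s : ℝ} (hs : 0 ≤ s) :
    ‖ph f s‖ ≤ A * A * Real.exp (-s) := by
  have h1 : ‖ph f s‖ ≤ ∫ x in Ioi 0, (A * A * Real.exp (-s)) * Real.exp (-x) := by
    apply norm_integral_le_of_norm_le (int_e.const_mul _)
    filter_upwards [ae_restrict_mem measurableSet_Ioi] with x hx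
    refine (bound2 hf hx hs).trans (le_of_eq ?_)
    ring
  rwa [integral_const_mul, integral_exp_neg_Ioi_zero, mul_one] at h1

lemma integrable_ph {f : ℝ → ℂ} {A : ℝ} (hf : Good f A) : Integrable (ph f) nu := by
  have := (int_ph hf 0).integral_prod_left
  apply this.congr
  refine ae_of_all _ fun s => ?_
  unfold ph
  apply integral_congr_ae
  refine ae_of_all _ fun x => ?_
  simp

/-- Positivity of the real part of the Fourier–Laplace transform of `ph f` -/
lemma ph_pos {f : ℝ → ℂ} {A : ℝ} (hf : Good f A) (l : ℝ) :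
    0 ≤ (∫ s in Ioi 0, ph f s * Complex.exp (-(l * s * Complex.I))).re := by
  have h1 := accretive (hf.mul l)
  have h2 := integral_integral_swap (f := fun s x : ℝ =>
    conj (f x) * f (x + s) * Complex.exp (-(l * s * Complex.I))) (μ := nu) (ν := nu) (int_ph hf l)
  have h3 : ∫ s in Ioi 0, ph f s * Complex.exp (-(l * s * Complex.I)) =
      ∫ s in Ioi 0, ∫ x in Ioi 0, conj (f x) * f (x + s) * Complex.exp (-(l * s * Complex.I)) := by
    apply integral_congr_ae
    refine ae_of_all _ fun s => ?_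
    unfold ph
    exact (integral_mul_const _ _).symm
  rw [h3, h2]
  convert h1 using 2
  apply integral_congr_ae
  refine ae_of_all _ fun x => ?_
  dsimp only
  rw [← integral_const_mul]
  apply integral_congr_ae
  refine ae_of_all _ fun s => ?_
  dsimp only
  rw [map_mul, ← Complex.exp_conj]
  have e1 : conj (-((l:ℂ) * x * Complex.I)) = (l:ℂ) * x * Complex.I := by
    simp
  rw [e1]
  have e2 : Complex.exp (-((l:ℂ) * s * Complex.I)) =
      Complex.exp ((l:ℂ) * x * Complex.I) * Complex.exp (-((l:ℂ) * ((x + s : ℝ) : ℂ) * Complex.I)) := by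
    rw [← Complex.exp_add]
    congr 1
    push_cast
    ring
  rw [e2]
  ring

lemma re_integral_nonneg {G : ℝ → ℂ} (h : ∀ t, 0 ≤ (G t).re) : 0 ≤ (∫ t, G t).re := by
  by_cases hG : Integrable G
  · have h3 : (∫ t, G t).re = ∫ t, (G t).re := (integral_re hG).symm
    rw [h3]
    exact integral_nonneg h
  · rw [integral_undef hG]
    simp

/-- The kernel. -/
noncomputable def KK (δ s : ℝ) : ℂ := ((Real.pi : ℂ) / ((δ:ℂ) + s * Complex.I)) ^ (1/2 : ℂ)

lemma KK_pos {f : ℝ → ℂ} {A : ℝ} (hf : Good f A) {δ : ℝ} (hδ : 0 < δ) :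
    0 ≤ (∫ s in Ioi 0, ph f s * KK δ s).re := by
  have hint : Integrable (Function.uncurry fun (s t : ℝ) =>
      ph f s * Complex.exp (-((δ:ℂ) + s * Complex.I) * (t:ℂ)^2)) (nu.prod volume) := by
    have h1 : Integrable (fun p : ℝ × ℝ => ‖ph f p.1‖ * Real.exp (-δ * p.2^2)) (nu.prod volume) :=
      (integrable_ph hf).norm.mul_prod (integrable_exp_neg_mul_sq hδ)
    apply h1.mono'
    · apply AEStronglyMeasurable.mul
      · exact (integrable_ph hf).aestronglyMeasurable.comp_fst
      · have : Continuous (fun p : ℝ × ℝ => Complex.exp (-((δ:ℂ) + p.1 * Complex.I) * (p.2:ℂ)^2)) :=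
          Complex.continuous_exp.comp (by fun_prop)
        exact this.aestronglyMeasurable
    · refine ae_of_all _ fun p => ?_
      simp only [Function.uncurry]
      rw [norm_mul, Complex.norm_exp]
      apply le_of_eq
      congr 2
      rw [show -((δ:ℂ) + p.1 * Complex.I) * (p.2:ℂ)^2 =
        ((-δ * p.2^2 : ℝ) : ℂ) + ((-p.1 * p.2^2 : ℝ) : ℂ) * Complex.I by push_cast; ring]
      rw [Complex.add_re, Complex.ofReal_re, Complex.re_ofReal_mul, Complex.I_re, mul_zero, add_zero]
  have h2 := integral_integral_swap hint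
  have h3 : ∫ s in Ioi 0, ph f s * KK δ s = ∫ s in Ioi 0, ∫ t : ℝ,
      ph f s * Complex.exp (-((δ:ℂ) + s * Complex.I) * (t:ℂ)^2) := by
    apply integral_congr_ae
    refine ae_of_all _ fun s => ?_
    dsimp only
    rw [integral_const_mul, integral_gaussian_complex (by simpa using hδ)]
    rfl
  rw [h3, h2]
  apply re_integral_nonneg
  intro t
  have h4 : ∫ s in Ioi 0, ph f s * Complex.exp (-((δ:ℂ) + s * Complex.I) * (t:ℂ)^2) =
      ((Real.exp (-δ * t^2) : ℝ) : ℂ) * ∫ s in Ioi 0, ph f s * Complex.exp (-(((t^2 : ℝ) : ℂ) * s * Complex.I)) := by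
    rw [← integral_const_mul]
    apply integral_congr_ae
    refine ae_of_all _ fun s => ?_
    dsimp only
    have : Complex.exp (-((δ:ℂ) + s * Complex.I) * (t:ℂ)^2) = ((Real.exp (-δ * t^2) : ℝ) : ℂ) *
        Complex.exp (-(((t^2 : ℝ) : ℂ) * s * Complex.I)) := by
      rw [Complex.ofReal_exp, ← Complex.exp_add]
      congr 1
      push_cast
      ring
    rw [this]
    ring
  rw [h4, Complex.re_ofReal_mul]
  exact mul_nonneg (Real.exp_pos _).le (ph_pos hf _)

lemma norm_KK {δ s : ℝ} (hs : 0 < s) :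
    ‖KK δ s‖ ≤ Real.sqrt Real.pi * s ^ (-(1/2) : ℝ) := by
  unfold KK
  have hπ := Real.pi_pos
  have hz : (δ:ℂ) + s * Complex.I ≠ 0 := by
    intro h
    have := congrArg Complex.im h
    simp at this
    exact hs.ne' this
  have h1 : s ≤ ‖(δ:ℂ) + s * Complex.I‖ := by
    have := Complex.abs_im_le_norm ((δ:ℂ) + s * Complex.I)
    simp only [Complex.add_im, Complex.ofReal_im, Complex.mul_im, Complex.ofReal_re, Complex.I_im,
      mul_one, Complex.I_re, mul_zero, add_zero, zero_add] at this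
    exact (le_abs_self s).trans this
  have h0 : (Real.pi : ℂ) / ((δ:ℂ) + s * Complex.I) ≠ 0 :=
    div_ne_zero (Complex.ofReal_ne_zero.2 hπ.ne') hz
  rw [show (1/2 : ℂ) = ((1/2 : ℝ) : ℂ) by push_cast; ring, Complex.norm_cpow_real, norm_div,
    Complex.norm_real, Real.norm_eq_abs, abs_of_pos hπ, Real.sqrt_eq_rpow]
  rw [Real.div_rpow hπ.le (norm_nonneg _), Real.rpow_neg hs.le, ← div_eq_mul_inv]
  apply div_le_div_of_nonneg_left (Real.rpow_nonneg hπ.le _) (Real.rpow_pos_of_pos hs _)
  exact Real.rpow_le_rpow hs.le h1 (by norm_num)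

lemma KK_zero {s : ℝ} (hs : 0 < s) :
    KK 0 s = (((Real.sqrt Real.pi * s ^ (-(1/2) : ℝ) : ℝ)) : ℂ) *
      Complex.exp (((-(Real.pi/4) : ℝ) : ℂ) * Complex.I) := by
  unfold KK
  have hπ := Real.pi_pos
  have h1 : (Real.pi : ℂ) / (((0:ℝ):ℂ) + s * Complex.I) =
      ((Real.pi / s : ℝ) : ℂ) * Complex.exp (((-(Real.pi/2) : ℝ) : ℂ) * Complex.I) := by
    have : Complex.exp (((-(Real.pi/2) : ℝ) : ℂ) * Complex.I) = -Complex.I := by
      apply Complex.ext
      · rw [Complex.exp_ofReal_mul_I_re, Real.cos_neg, Real.cos_pi_div_two]; simp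
      · rw [Complex.exp_ofReal_mul_I_im, Real.sin_neg, Real.sin_pi_div_two]; simp
    rw [this]
    have hs' : (s:ℂ) ≠ 0 := Complex.ofReal_ne_zero.2 hs.ne'
    push_cast
    rw [zero_add]
    field_simp
    rw [Complex.I_sq]
    ring
  have h2 : (0:ℝ) < Real.pi / s := by positivity
  have h3 : ((Real.pi / s : ℝ) : ℂ) * Complex.exp (((-(Real.pi/2) : ℝ) : ℂ) * Complex.I) =
      Complex.exp (((Real.log (Real.pi / s) : ℝ) : ℂ) + ((-(Real.pi/2) : ℝ) : ℂ) * Complex.I) := by
    rw [Complex.exp_add, ← Complex.ofReal_exp, Real.exp_log h2]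
  rw [h1, h3, Complex.cpow_def_of_ne_zero (Complex.exp_ne_zero _), Complex.log_exp]
  · have h4 : Real.sqrt Real.pi * s ^ (-(1/2) : ℝ) = Real.exp (Real.log (Real.pi / s) * (1/2)) := by
      rw [← Real.rpow_def_of_pos h2, Real.div_rpow hπ.le hs.le, Real.rpow_neg hs.le,
        Real.sqrt_eq_rpow]
      exact (div_eq_mul_inv _ _).symm
    rw [h4, Complex.ofReal_exp, ← Complex.exp_add]
    congr 1
    push_cast
    ring
  · simp only [Complex.add_im, Complex.ofReal_im, Complex.mul_im, Complex.ofReal_re, Complex.I_im,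
      mul_one, Complex.I_re, mul_zero, add_zero, zero_add]
    linarith
  · simp only [Complex.add_im, Complex.ofReal_im, Complex.mul_im, Complex.ofReal_re, Complex.I_im,
      mul_one, Complex.I_re, mul_zero, add_zero, zero_add]
    linarith

lemma continuousAt_KK {δ s : ℝ} (hs : 0 < s) :
    ContinuousAt (fun p : ℝ × ℝ => KK p.1 p.2) (δ, s) := by
  unfold KK
  have hπ := Real.pi_pos
  have hz : (δ:ℂ) + s * Complex.I ≠ 0 := by
    intro h
    have := congrArg Complex.im h
    simp at this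
    exact hs.ne' this
  apply ContinuousAt.comp (g := fun z : ℂ => z ^ (1/2 : ℂ))
    (f := fun p : ℝ × ℝ => (Real.pi : ℂ) / ((p.1:ℂ) + p.2 * Complex.I))
  · apply continuousAt_cpow_const
    right
    rw [Complex.div_im]
    have h1 : 0 < Complex.normSq ((δ:ℂ) + s * Complex.I) := Complex.normSq_pos.2 hz
    simp only [Complex.ofReal_re, Complex.ofReal_im, Complex.add_im, Complex.mul_im, Complex.I_im,
      Complex.I_re, mul_one, mul_zero, add_zero, zero_add, zero_mul, zero_div, zero_sub]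
    have h2 : 0 < Real.pi * s / Complex.normSq ((δ:ℂ) + s * Complex.I) := by positivity
    intro h
    linarith
  · have hc : ContinuousAt (fun p : ℝ × ℝ => (p.1:ℂ) + p.2 * Complex.I) (δ, s) := by fun_prop
    exact ContinuousAt.div continuousAt_const hc hz

lemma aesm_KK {δ : ℝ} : AEStronglyMeasurable (fun s => KK δ s) nu := by
  apply ContinuousOn.aestronglyMeasurable _ measurableSet_Ioi
  intro s hs
  apply ContinuousAt.continuousWithinAt
  have h1 := continuousAt_KK (δ := δ) (show 0 < s from hs)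
  exact h1.comp (f := fun s : ℝ => (δ, s)) (by fun_prop)

lemma int_gamma : Integrable (fun s : ℝ => Real.exp (-s) * s ^ (-(1/2) : ℝ)) nu := by
  have := Real.GammaIntegral_convergent (s := 1/2) (by norm_num)
  apply Integrable.congr this
  refine ae_of_all _ fun s => ?_
  dsimp only
  norm_num

lemma KK0_pos {f : ℝ → ℂ} {A : ℝ} (hf : Good f A) :
    0 ≤ (∫ s in Ioi 0, ph f s * KK 0 s).re := by
  have hlim : Tendsto (fun n : ℕ => ∫ s in Ioi 0, ph f s * KK (1 / ((n:ℝ) + 1)) s) atTop
      (𝓝 (∫ s in Ioi 0, ph f s * KK 0 s)) := by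
    apply tendsto_integral_of_dominated_convergence
      (fun s => A * A * Real.sqrt Real.pi * (Real.exp (-s) * s ^ (-(1/2) : ℝ)))
    · intro n
      exact (integrable_ph hf).aestronglyMeasurable.mul aesm_KK
    · exact int_gamma.const_mul _
    · intro n
      filter_upwards [ae_restrict_mem measurableSet_Ioi] with s hs
      have hs' : 0 < s := hs
      rw [norm_mul]
      calc ‖ph f s‖ * ‖KK (1 / ((n:ℝ) + 1)) s‖ ≤ (A * A * Real.exp (-s)) *
            (Real.sqrt Real.pi * s ^ (-(1/2) : ℝ)) :=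
            mul_le_mul (ph_norm hf hs'.le) (norm_KK hs') (norm_nonneg _)
              (mul_nonneg (mul_self_nonneg A) (Real.exp_pos _).le)
        _ = _ := by ring
    · filter_upwards [ae_restrict_mem measurableSet_Ioi] with s hs
      have hs' : 0 < s := hs
      have h1 : Tendsto (fun p : ℝ × ℝ => KK p.1 p.2) (𝓝 (0, s)) (𝓝 (KK 0 s)) :=
        continuousAt_KK hs'
      have h2 : Tendsto (fun n : ℕ => ((1 / ((n:ℝ) + 1), s) : ℝ × ℝ)) atTop (𝓝 (0, s)) :=
        (tendsto_one_div_add_atTop_nhds_zero_nat).prodMk_nhds tendsto_const_nhds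
      have h3 := h1.comp h2
      simp only [Function.comp_def] at h3
      exact Tendsto.const_mul (ph f s) h3
  have h3 := (Complex.continuous_re.tendsto _).comp hlim
  exact ge_of_tendsto' h3 fun n => KK_pos hf (by positivity)

/-- change of variables -/
lemma int_sq (φ : ℝ → ℂ) (hφ : Integrable (fun t : ℝ => φ (t^2))) :
    ∫ s in Ioi 0, φ s * ((s ^ (-(1/2) : ℝ) : ℝ) : ℂ) = ∫ t : ℝ, φ (t^2) := by
  have h1 := integral_comp_rpow_Ioi_of_pos (g := fun s : ℝ => φ s * ((s ^ (-(1/2) : ℝ) : ℝ) : ℂ))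
    (p := 2) (by norm_num)
  rw [← h1]
  have h2 : ∫ x in Ioi (0:ℝ), ((2:ℝ) * x ^ ((2:ℝ) - 1)) • (φ (x ^ (2:ℝ)) * (((x ^ (2:ℝ)) ^ (-(1/2) : ℝ) : ℝ) : ℂ))
      = ∫ x in Ioi (0:ℝ), 2 * φ (x^2) := by
    apply setIntegral_congr_fun measurableSet_Ioi
    intro x hx
    have hx' : 0 < x := hx
    dsimp only
    rw [← Real.rpow_mul hx'.le, show (2:ℝ) - 1 = 1 by norm_num, Real.rpow_one,
      show (2:ℝ) * (-(1/2)) = -1 by norm_num, Real.rpow_neg_one, Real.rpow_two, Complex.real_smul]
    have : (x:ℂ) ≠ 0 := Complex.ofReal_ne_zero.2 hx'.ne'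
    push_cast
    field_simp
  rw [h2, integral_const_mul]
  have h3 : ∫ t : ℝ, φ (t^2) = (∫ t in Iic 0, φ (t^2)) + ∫ t in Ioi 0, φ (t^2) := by
    rw [← setIntegral_union (Iic_disjoint_Ioi le_rfl) measurableSet_Ioi hφ.integrableOn
      hφ.integrableOn, Iic_union_Ioi, setIntegral_univ]
  have h4 : ∫ t in Iic (0:ℝ), φ (t^2) = ∫ t in Ioi (0:ℝ), φ (t^2) := by
    have := integral_comp_neg_Iic (0:ℝ) (fun t : ℝ => φ (t^2))
    rw [neg_zero] at this
    rw [← this]
    simp
  rw [h3, h4]
  ring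

lemma int_xt {f : ℝ → ℂ} {A : ℝ} (hf : Good f A) :
    Integrable (fun p : ℝ × ℝ => conj (f p.1) * f (p.1 + p.2^2)) (nu.prod volume) := by
  apply ((int_e.const_mul A).mul_prod ((integrable_exp_neg_mul_sq one_pos).const_mul A)).mono'
  · have hc := hf.cont
    have : Continuous (fun p : ℝ × ℝ => conj (f p.1) * f (p.1 + p.2^2)) :=
      (Complex.continuous_conj.comp (hc.comp continuous_fst)).mul (hc.comp (by fun_prop))
    exact this.aestronglyMeasurable
  · filter_upwards [fst_pos volume] with p h1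
    have := bound2 hf h1 (sq_nonneg p.2)
    rw [neg_one_mul]
    exact this

/-- **Dissipativity.** -/
lemma dissipative {f : ℝ → ℂ} {A : ℝ} (hf : Good f A) :
    (∫ x in Ioi 0, conj (f x) * (Complex.exp (((3 * Real.pi / 4 : ℝ) : ℂ) * Complex.I) *
      ∫ t : ℝ, f (x + t^2))).re ≤ 0 := by
  have hph : Integrable (fun t : ℝ => ph f (t^2)) := by
    have := (int_xt hf).integral_prod_right
    exact this
  have h1 : ∫ x in Ioi 0, conj (f x) * (Complex.exp (((3 * Real.pi / 4 : ℝ) : ℂ) * Complex.I) *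
      ∫ t : ℝ, f (x + t^2)) = Complex.exp (((3 * Real.pi / 4 : ℝ) : ℂ) * Complex.I) *
      ∫ s in Ioi 0, ph f s * ((s ^ (-(1/2) : ℝ) : ℝ) : ℂ) := by
    rw [int_sq _ hph]
    have h2 := integral_integral_swap (f := fun x t : ℝ => conj (f x) * f (x + t^2))
      (μ := nu) (ν := volume) (int_xt hf)
    have h3 : ∫ t : ℝ, ph f (t^2) = ∫ t : ℝ, ∫ x in Ioi 0, conj (f x) * f (x + t^2) := rfl
    rw [h3, ← h2, ← integral_const_mul]
    apply integral_congr_ae
    refine ae_of_all _ fun x => ?_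
    dsimp only
    rw [integral_const_mul]
    ring
  have h4 : ∫ s in Ioi 0, ph f s * KK 0 s =
      -((Real.sqrt Real.pi : ℝ) : ℂ) * (Complex.exp (((3 * Real.pi / 4 : ℝ) : ℂ) * Complex.I) *
      ∫ s in Ioi 0, ph f s * ((s ^ (-(1/2) : ℝ) : ℝ) : ℂ)) := by
    rw [← mul_assoc, ← integral_const_mul]
    apply setIntegral_congr_fun measurableSet_Ioi
    intro s hs
    have hs' : 0 < s := hs
    dsimp only
    rw [KK_zero hs']
    have h5 : Complex.exp (((-(Real.pi/4) : ℝ) : ℂ) * Complex.I) =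
        -Complex.exp (((3 * Real.pi / 4 : ℝ) : ℂ) * Complex.I) := by
      rw [show ((3 * Real.pi / 4 : ℝ) : ℂ) * Complex.I =
        ((-(Real.pi/4) : ℝ) : ℂ) * Complex.I + Real.pi * Complex.I by push_cast; ring,
        Complex.exp_add, Complex.exp_pi_mul_I]
      ring
    rw [h5]
    push_cast
    ring
  have h6 := KK0_pos hf
  rw [h4, ← Complex.ofReal_neg, Complex.re_ofReal_mul, ← h1] at h6
  have h7 : 0 < Real.sqrt Real.pi := Real.sqrt_pos.2 Real.pi_pos
  by_contra hc
  push Not at hc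
  nlinarith [mul_pos h7 hc]

end Pool.Agent.R253.HQ
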