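import Pool.Agent.R253.HQ.Basic

open Filter Topology MeasureTheory Set
open scoped NNReal ZeroAtInfty

namespace Pool.Agent.R253.HQ

/-- Eventually linear weights: `b x - β x` is bounded. -/
structure IsLin (b : ℝ≥0 → ℝ) (β M : ℝ) : Prop where
  wt : IsWeight b
  le : ∀ x : ℝ≥0, b x ≤ β * x
  ge : ∀ x : ℝ≥0, β * x - M ≤ b x

lemma tendsto_coe_atTop : Tendsto (fun x : ℝ≥0 => (x:ℝ)) atTop atTop :=
  NNReal.tendsto_coe_atTop.2 tendsto_id

/-- a decaying function `x ^ k * exp (b x - μ x)`, `k = 0, 1`. -/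
noncomputable def uf (b : ℝ≥0 → ℝ) (μ : ℂ) (x : ℝ≥0) : ℂ := Complex.exp ((b x : ℂ) - μ * (x:ℝ))

lemma norm_uf {b : ℝ≥0 → ℝ} {β M : ℝ} (h : IsLin b β M) (μ : ℂ) (x : ℝ≥0) :
    ‖uf b μ x‖ ≤ Real.exp (-(μ.re - β) * x) := by
  unfold uf
  rw [Complex.norm_exp]
  apply Real.exp_le_exp.2
  simp only [Complex.sub_re, Complex.ofReal_re, Complex.mul_re, Complex.ofReal_im, mul_zero,
    sub_zero]
  have := h.le x
  linarith

lemma continuous_uf {b : ℝ≥0 → ℝ} (hb : Continuous b) (μ : ℂ) : Continuous (uf b μ) := by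
  unfold uf
  have h1 : Continuous (fun x : ℝ≥0 => ((b x : ℝ) : ℂ)) := Complex.continuous_ofReal.comp hb
  have h2 : Continuous (fun x : ℝ≥0 => (((x:ℝ≥0):ℝ) : ℂ)) :=
    Complex.continuous_ofReal.comp NNReal.continuous_coe
  exact Complex.continuous_exp.comp (h1.sub (continuous_const.mul h2))

/-- `u_μ (x) = exp (b x - μ x)` as an element of `C₀`. -/
noncomputable def uu {b : ℝ≥0 → ℝ} {β M : ℝ} (h : IsLin b β M) (μ : ℂ) (hμ : β < μ.re) : E where
  toFun := uf b μ
  continuous_toFun := continuous_uf h.wt.cont μ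
  zero_at_infty' := by
    rw [cocompact_eq_atTop]
    apply squeeze_zero_norm (norm_uf h μ)
    apply Real.tendsto_exp_atBot.comp
    apply Tendsto.const_mul_atTop_of_neg (by linarith) tendsto_coe_atTop

lemma uu_apply {b : ℝ≥0 → ℝ} {β M : ℝ} (h : IsLin b β M) (μ : ℂ) (hμ : β < μ.re) (x : ℝ≥0) :
    uu h μ hμ x = uf b μ x := rfl

/-- `- x u_μ (x)` as an element of `C₀`. -/
noncomputable def vv {b : ℝ≥0 → ℝ} {β M : ℝ} (h : IsLin b β M) (μ : ℂ) (hμ : β < μ.re) : E where
  toFun x := -((x:ℝ):ℂ) * uf b μ x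
  continuous_toFun := by
    have h2 : Continuous (fun x : ℝ≥0 => (((x:ℝ≥0):ℝ) : ℂ)) :=
      Complex.continuous_ofReal.comp NNReal.continuous_coe
    exact h2.neg.mul (continuous_uf h.wt.cont μ)
  zero_at_infty' := by
    rw [cocompact_eq_atTop]
    have hη : 0 < μ.re - β := by linarith
    apply squeeze_zero_norm (a := fun x : ℝ≥0 => (x:ℝ) * Real.exp (-(μ.re - β) * x))
    · intro x
      rw [norm_mul, norm_neg, Complex.norm_real, Real.norm_eq_abs, abs_of_nonneg x.coe_nonneg]
      exact mul_le_mul_of_nonneg_left (norm_uf h μ x) x.coe_nonneg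
    · have h3 := (Real.tendsto_pow_mul_exp_neg_atTop_nhds_zero 1)
      have h4 : Tendsto (fun y : ℝ => (1/(μ.re - β)) * (((μ.re - β) * y)^1 * Real.exp (-((μ.re - β) * y))))
          atTop (𝓝 ((1/(μ.re - β)) * 0)) :=
        (h3.comp (tendsto_id.const_mul_atTop hη)).const_mul _
      rw [mul_zero] at h4
      refine (h4.comp tendsto_coe_atTop).congr fun x => ?_
      simp only [Function.comp_apply, pow_one]
      rw [neg_mul]
      field_simp

lemma vv_apply {b : ℝ≥0 → ℝ} {β M : ℝ} (h : IsLin b β M) (μ : ℂ) (hμ : β < μ.re) (x : ℝ≥0) :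
    vv h μ hμ x = -((x:ℝ):ℂ) * uf b μ x := rfl

/-- The eigenvalue. -/
noncomputable def lam (μ : ℂ) : ℂ := cc * ((Real.pi : ℂ) / μ) ^ (1/2 : ℂ)

lemma TT_uu {b : ℝ≥0 → ℝ} {β M : ℝ} (h : IsLin b β M) (hβ : 0 ≤ β) (μ : ℂ) (hμ : β < μ.re) :
    TT b h.wt (uu h μ hμ) = lam μ • uu h μ hμ := by
  ext x
  rw [TT_apply, ZeroAtInftyContinuousMap.smul_apply, uu_apply]
  have h1 : ∀ t : ℝ, ker b (uu h μ hμ) x t = uf b μ x * Complex.exp (-μ * (t:ℂ)^2) := by
    intro t
    unfold ker
    rw [uu_apply]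
    unfold uf
    rw [Complex.ofReal_exp, ← Complex.exp_add, ← Complex.exp_add, NNReal.coe_add, coe_sq]
    congr 1
    push_cast
    ring
  simp only [h1]
  rw [integral_const_mul, integral_gaussian_complex (by linarith)]
  unfold lam
  rw [smul_eq_mul]
  ring

/-- Density via duality. -/
lemma dense_of_dual {V : Type*} [NormedAddCommGroup V] [NormedSpace ℂ V] (S : Submodule ℂ V)
    (h : ∀ l : V →L[ℂ] ℂ, (∀ x ∈ S, l x = 0) → l = 0) : Dense (S : Set V) := by
  by_contra hS
  rw [dense_iff_closure_eq] at hS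
  obtain ⟨x, hx⟩ : ∃ x, x ∉ closure (S : Set V) := by
    by_contra hc
    push Not at hc
    exact hS (Set.eq_univ_of_forall hc)
  have hconv : Convex ℝ (closure (S : Set V)) := (S.restrictScalars ℝ).convex.closure
  obtain ⟨f, u, h1, h2⟩ := RCLike.geometric_hahn_banach_closed_point (𝕜 := ℂ) hconv
    isClosed_closure hx
  have h3 : ∀ y ∈ S, f y = 0 := by
    intro y hy
    by_contra hf
    have h4 := h1 _ (subset_closure (S.smul_mem ((((|u| + 1 : ℝ) : ℂ)) * (f y)⁻¹) hy))
    rw [map_smul, smul_eq_mul, mul_assoc, inv_mul_cancel₀ hf, mul_one] at h4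
    simp only [RCLike.re_to_complex, Complex.ofReal_re] at h4
    linarith [le_abs_self u]
  have h4 := h f h3
  have h5 := h1 0 (subset_closure S.zero_mem)
  rw [h4] at h2 h5
  simp at h2 h5
  linarith

/-- real exponents span a dense subspace -/
lemma dense_real {b : ℝ≥0 → ℝ} {β M : ℝ} (h : IsLin b β M) (g : E) {ε : ℝ} (hε : 0 < ε) :
    ∃ v ∈ Submodule.span ℂ {w : E | ∃ (j : ℕ) (hj : β < (((β + j + 1 : ℝ) : ℂ)).re),
      w = uu h ((β + j + 1 : ℝ) : ℂ) hj}, ‖g - v‖ ≤ ε := by
  classical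
  let xr : ℝ → ℝ≥0 := fun r => (-Real.log r).toNNReal
  let H : ℝ → ℂ := fun r => if r ≤ 0 then 0 else g (xr r) * Complex.exp ((β * (xr r) - b (xr r) : ℝ) : ℂ)
  have hHb : ∀ x : ℝ≥0, ‖g x * Complex.exp ((β * x - b x : ℝ) : ℂ)‖ ≤ ‖g x‖ * Real.exp M := by
    intro x
    rw [norm_mul]
    apply mul_le_mul_of_nonneg_left _ (norm_nonneg _)
    rw [Complex.norm_exp, Complex.ofReal_re]
    exact Real.exp_le_exp.2 (by linarith [h.ge x])
  have hHc : ContinuousOn H (Set.Icc 0 1) := by
    intro r hr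
    rcases eq_or_lt_of_le hr.1 with h0 | h0
    · subst h0
      have hH0 : H 0 = 0 := by simp [H]
      have ht : Tendsto (fun r : ℝ => ‖g (xr r)‖ * Real.exp M) (𝓝[>] 0) (𝓝 (0 * Real.exp M)) := by
        apply Tendsto.mul_const
        have h1 : Tendsto (fun x : ℝ≥0 => ‖g x‖) atTop (𝓝 0) := by
          have h2 := g.zero_at_infty'
          rw [cocompact_eq_atTop] at h2
          simpa using h2.norm
        apply h1.comp
        have h3 : Tendsto (fun r : ℝ => -Real.log r) (𝓝[>] 0) atTop :=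
          tendsto_neg_atBot_atTop.comp Real.tendsto_log_nhdsGT_zero
        exact Real.tendsto_toNNReal_atTop.comp h3
      rw [zero_mul] at ht
      apply ContinuousAt.continuousWithinAt
      rw [ContinuousAt, hH0]
      rw [← nhdsLE_sup_nhdsGT]
      apply Tendsto.sup
      · apply tendsto_const_nhds.congr'
        filter_upwards [self_mem_nhdsWithin] with r hr
        have : r ≤ 0 := hr
        simp [H, this]
      · apply squeeze_zero_norm' _ ht
        filter_upwards [self_mem_nhdsWithin] with r hr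
        have : ¬ r ≤ 0 := not_le.2 hr
        simp only [H, if_neg this]
        exact hHb _
    · apply ContinuousAt.continuousWithinAt
      have h1 : ContinuousAt (fun r => g (xr r) * Complex.exp ((β * (xr r) - b (xr r) : ℝ) : ℂ)) r := by
        have h2 : ContinuousAt xr r :=
          continuous_real_toNNReal.continuousAt.comp (Real.continuousAt_log h0.ne').neg
        have h3 : Continuous (fun x : ℝ≥0 => g x * Complex.exp ((β * x - b x : ℝ) : ℂ)) := by
          apply (map_continuous g).mul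
          apply Complex.continuous_exp.comp
          apply Complex.continuous_ofReal.comp
          exact (continuous_const.mul NNReal.continuous_coe).sub h.wt.cont
        exact h3.continuousAt.comp h2
      apply h1.congr
      filter_upwards [lt_mem_nhds h0] with y hy
      simp only [H, if_neg (not_le.2 hy)]
  obtain ⟨p, hp⟩ := exists_polynomial_near_of_continuousOn 0 1 (fun r => (H r).re)
    (Complex.continuous_re.comp_continuousOn hHc) (ε/4) (by positivity)
  obtain ⟨q, hq⟩ := exists_polynomial_near_of_continuousOn 0 1 (fun r => (H r).im)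
    (Complex.continuous_im.comp_continuousOn hHc) (ε/4) (by positivity)
  let P : Polynomial ℂ := p.map Complex.ofRealHom + Polynomial.C Complex.I * q.map Complex.ofRealHom
  have hP : ∀ r : ℝ, P.eval (r:ℂ) = ((p.eval r : ℝ) : ℂ) + Complex.I * ((q.eval r : ℝ) : ℂ) := by
    intro r
    simp only [P, Polynomial.eval_add, Polynomial.eval_mul, Polynomial.eval_C]
    rw [show (r:ℂ) = Complex.ofRealHom r from rfl, Polynomial.eval_map_apply,
      Polynomial.eval_map_apply]
    rfl
  have hPH : ∀ r ∈ Set.Icc (0:ℝ) 1, ‖P.eval (r:ℂ) - H r‖ ≤ ε/2 := by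
    intro r hr
    have h1 := hp r hr
    have h2 := hq r hr
    have h3 : P.eval (r:ℂ) - H r = ((p.eval r - (H r).re : ℝ) : ℂ) +
        ((q.eval r - (H r).im : ℝ) : ℂ) * Complex.I := by
      rw [hP]
      apply Complex.ext <;> simp
    rw [h3]
    calc ‖((p.eval r - (H r).re : ℝ) : ℂ) + ((q.eval r - (H r).im : ℝ) : ℂ) * Complex.I‖
        ≤ ‖((p.eval r - (H r).re : ℝ) : ℂ)‖ + ‖((q.eval r - (H r).im : ℝ) : ℂ) * Complex.I‖ :=
          norm_add_le _ _
      _ = |p.eval r - (H r).re| + |q.eval r - (H r).im| := by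
          rw [norm_mul, Complex.norm_I, mul_one, Complex.norm_real, Complex.norm_real,
            Real.norm_eq_abs, Real.norm_eq_abs]
      _ ≤ ε/2 := by linarith
  have hP0 : ‖P.coeff 0‖ ≤ ε/2 := by
    have := hPH 0 ⟨le_rfl, zero_le_one⟩
    simp only [H, le_refl, if_true, sub_zero, Complex.ofReal_zero] at this
    rwa [Polynomial.coeff_zero_eq_eval_zero]
  let v : E := ∑ j ∈ Finset.range (P.divX.natDegree + 1), P.divX.coeff j •
    uu h ((β + j + 1 : ℝ) : ℂ) (by rw [Complex.ofReal_re]; linarith [(Nat.cast_nonneg j : (0:ℝ) ≤ j)])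
  refine ⟨v, ?_, ?_⟩
  · apply Submodule.sum_mem
    intro j _
    apply Submodule.smul_mem
    exact Submodule.subset_span ⟨j, _, rfl⟩
  · apply norm_le _ hε.le
    intro x
    have hsum : ∀ (s : Finset ℕ) (F : ℕ → E), (∑ j ∈ s, F j) x = ∑ j ∈ s, (F j) x := by
      intro s F
      induction s using Finset.induction_on with
      | empty => simp
      | insert a s ha ih => rw [Finset.sum_insert ha, Finset.sum_insert ha,
          ZeroAtInftyContinuousMap.add_apply, ih]
    set r := Real.exp (-(x:ℝ)) with hr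
    have hr0 : 0 < r := Real.exp_pos _
    have hr1 : r ≤ 1 := Real.exp_le_one_iff.2 (by have := x.coe_nonneg; linarith)
    have hxr : xr r = x := by
      simp only [xr, hr, Real.log_exp, neg_neg]
      exact Real.toNNReal_coe
    have hv : v x = Complex.exp ((b x - β * x : ℝ) : ℂ) * (P.eval (r:ℂ) - P.coeff 0) := by
      have e1 : P.eval (r:ℂ) - P.coeff 0 = P.divX.eval (r:ℂ) * r := by
        conv_lhs => rw [← Polynomial.divX_mul_X_add P]
        simp
      rw [e1, Polynomial.eval_eq_sum_range, Finset.sum_mul, Finset.mul_sum]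
      simp only [v]
      rw [hsum]
      apply Finset.sum_congr rfl
      intro j _
      rw [ZeroAtInftyContinuousMap.smul_apply, uu_apply, smul_eq_mul]
      unfold uf
      have e2 : Complex.exp ((b x : ℂ) - ((β + j + 1 : ℝ) : ℂ) * (x:ℝ)) =
          Complex.exp ((b x - β * x : ℝ) : ℂ) * ((r:ℂ)^j * r) := by
        rw [hr, Complex.ofReal_exp, ← Complex.exp_nat_mul, ← Complex.exp_add, ← Complex.exp_add]
        congr 1
        push_cast
        ring
      rw [e2]
      ring
    have hg : g x = Complex.exp ((b x - β * x : ℝ) : ℂ) * H r := by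
      simp only [H, if_neg (not_le.2 hr0), hxr]
      rw [mul_comm (g x), ← mul_assoc, ← Complex.exp_add]
      have : (((b x - β * x : ℝ) : ℂ)) + ((β * x - b x : ℝ) : ℂ) = 0 := by push_cast; ring
      rw [this, Complex.exp_zero, one_mul]
    rw [ZeroAtInftyContinuousMap.sub_apply, hv, hg, ← mul_sub, norm_mul]
    have e3 : ‖Complex.exp ((b x - β * x : ℝ) : ℂ)‖ ≤ 1 := by
      rw [Complex.norm_exp, Complex.ofReal_re]
      exact Real.exp_le_one_iff.2 (by linarith [h.le x])
    have e4 : ‖H r - (P.eval (r:ℂ) - P.coeff 0)‖ ≤ ε := by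
      have := hPH r ⟨hr0.le, hr1⟩
      calc ‖H r - (P.eval (r:ℂ) - P.coeff 0)‖ = ‖(P.coeff 0) - (P.eval (r:ℂ) - H r)‖ := by
            congr 1; ring
        _ ≤ ‖P.coeff 0‖ + ‖P.eval (r:ℂ) - H r‖ := norm_sub_le _ _
        _ ≤ ε := by linarith
    calc _ ≤ 1 * ε := mul_le_mul e3 e4 (norm_nonneg _) zero_le_one
      _ = ε := one_mul _

end Pool.Agent.R253.HQ
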