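import Mathlib

open Filter Topology MeasureTheory Set
open scoped NNReal

namespace Pool.Agent.R253.HQ

variable {V H : Type*} [NormedAddCommGroup V] [NormedSpace ℂ V] [CompleteSpace V]
  [NormedAddCommGroup H] [InnerProductSpace ℝ H]

lemma hasDerivAt_orbit (j : V →L[ℝ] H) (g : V) (T : V →L[ℂ] V) (t : ℝ) :
    HasDerivAt (fun u : ℝ => ‖j (NormedSpace.exp (u • T) g)‖^2)
      (2 * inner ℝ (j (NormedSpace.exp (t • T) g)) (j (T (NormedSpace.exp (t • T) g)))) t := by
  have h1 := hasDerivAt_exp_smul_const' (𝕂 := ℝ) T t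
  have h2 := (j.comp ((ContinuousLinearMap.apply ℂ V g).restrictScalars ℝ)).hasFDerivAt.comp_hasDerivAt t h1
  have h3 := h2.norm_sq
  exact h3

/-- If `T` is dissipative for some Hilbertian seminorm then `exp T` is not hypercyclic. -/
lemma not_dense_exp (j : V →L[ℝ] H) (T : V →L[ℂ] V) (hd : ∀ v, inner ℝ (j v) (j (T v)) ≤ 0)
    {u : V} (hu : j u ≠ 0) (x : V) :
    ¬ Dense (range fun n : ℕ => ((NormedSpace.exp T)^n) x) := by
  intro hD
  have hanti : Antitone (fun t : ℝ => ‖j (NormedSpace.exp (t • T) x)‖^2) := by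
    apply antitone_of_deriv_nonpos
    · exact fun t => (hasDerivAt_orbit j x T t).differentiableAt
    · intro t
      rw [(hasDerivAt_orbit j x T t).deriv]
      have := hd (NormedSpace.exp (t • T) x)
      linarith
  have hb : ∀ n : ℕ, ‖j (((NormedSpace.exp T)^n) x)‖ ≤ ‖j x‖ := by
    intro n
    have h1 := hanti (Nat.cast_nonneg n : (0:ℝ) ≤ n)
    simp only [zero_smul, NormedSpace.exp_zero] at h1
    have h2 : NormedSpace.exp ((n:ℝ) • T) = (NormedSpace.exp T)^n := by
      let _ : NormedAlgebra ℚ (V →L[ℂ] V) := NormedAlgebra.restrictScalars ℚ ℂ _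
      rw [Nat.cast_smul_eq_nsmul, NormedSpace.exp_nsmul]
    rw [h2] at h1
    exact (pow_le_pow_iff_left₀ (norm_nonneg _) (norm_nonneg _) two_ne_zero).1 h1
  have hcl : IsClosed {v : V | ‖j v‖ ≤ ‖j x‖} := isClosed_le j.continuous.norm continuous_const
  have hall : ∀ v, ‖j v‖ ≤ ‖j x‖ := by
    intro v
    have h1 : closure (range fun n : ℕ => ((NormedSpace.exp T)^n) x) ⊆ {v : V | ‖j v‖ ≤ ‖j x‖} := by
      apply closure_minimal _ hcl
      rintro _ ⟨n, rfl⟩
      exact hb n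
    rw [hD.closure_eq] at h1
    exact h1 (mem_univ v)
  have hu' : 0 < ‖j u‖ := norm_pos_iff.2 hu
  have h1 := hall (((‖j x‖ + 1) / ‖j u‖) • u)
  rw [map_smul, norm_smul, Real.norm_eq_abs, abs_of_nonneg (by positivity),
    div_mul_cancel₀ _ hu'.ne'] at h1
  linarith

end Pool.Agent.R253.HQ
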