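import Pool.Agent.R253.HQ.Rec
import Pool.Agent.R253.HQ.Dissip

open Filter Topology MeasureTheory Set
open scoped NNReal ZeroAtInfty ComplexConjugate

namespace Pool.Agent.R253.HQ

/-- the density `exp (-2 b)` -/
noncomputable def wt (b : ℝ≥0 → ℝ) (x : ℝ) : ℝ := Real.exp (-(2 * b x.toNNReal))

lemma le_weight {b : ℝ≥0 → ℝ} (hb : IsWeight b) {x : ℝ} (hx : 0 ≤ x) : b 0 + x ≤ b x.toNNReal := by
  have := hb.incr 0 x.toNNReal
  rw [zero_add, Real.coe_toNNReal x hx] at this
  linarith

lemma continuous_wt {b : ℝ≥0 → ℝ} (hb : IsWeight b) : Continuous (wt b) := by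
  unfold wt
  exact Real.continuous_exp.comp ((continuous_const.mul (hb.cont.comp continuous_real_toNNReal)).neg)

lemma integrable_wt {b : ℝ≥0 → ℝ} (hb : IsWeight b) : Integrable (wt b) nu := by
  apply (int_e.const_mul (Real.exp (-(2 * b 0)))).mono' (continuous_wt hb).aestronglyMeasurable
  filter_upwards [ae_restrict_mem measurableSet_Ioi] with x hx
  have hx' : 0 < x := hx
  unfold wt
  rw [Real.norm_eq_abs, abs_of_pos (Real.exp_pos _), ← Real.exp_add]
  apply Real.exp_le_exp.2
  have := le_weight hb hx'.le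
  linarith

/-- the measure -/
noncomputable def mu (b : ℝ≥0 → ℝ) : Measure ℝ := nu.withDensity (fun x => ENNReal.ofReal (wt b x))

lemma finite_mu {b : ℝ≥0 → ℝ} (hb : IsWeight b) : IsFiniteMeasure (mu b) :=
  isFiniteMeasure_withDensity_ofReal (integrable_wt hb).2

/-- restriction to a bounded continuous function on the line -/
noncomputable def jc (g : E) : BoundedContinuousFunction ℝ ℂ :=
  g.toBCF.compContinuous ⟨Real.toNNReal, continuous_real_toNNReal⟩

lemma jc_apply (g : E) (x : ℝ) : jc g x = g x.toNNReal := rfl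

lemma norm_jc (g : E) : ‖jc g‖ ≤ ‖g‖ := by
  rw [BoundedContinuousFunction.norm_le (norm_nonneg g)]
  intro x
  rw [jc_apply]
  exact norm_coe g _

/-- the embedding of bounded continuous functions -/
noncomputable def jL {b : ℝ≥0 → ℝ} (hb : IsWeight b) :
    BoundedContinuousFunction ℝ ℂ →L[ℂ] Lp ℂ 2 (mu b) :=
  haveI := finite_mu hb
  BoundedContinuousFunction.toLp 2 (mu b) ℂ

/-- the map into `L²` -/
noncomputable def jj {b : ℝ≥0 → ℝ} (hb : IsWeight b) : E →L[ℂ] Lp ℂ 2 (mu b) :=
  LinearMap.mkContinuous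
    { toFun := fun g => jL hb (jc g)
      map_add' := by
        intro g h
        rw [← map_add]
        congr 1
      map_smul' := by
        intro c g
        rw [RingHom.id_apply, ← map_smul]
        congr 1 }
    ‖jL hb‖
    (by
      intro g
      exact ((jL hb).le_opNorm _).trans
        (mul_le_mul_of_nonneg_left (norm_jc g) (jL hb).opNorm_nonneg))

lemma jj_ae {b : ℝ≥0 → ℝ} (hb : IsWeight b) (g : E) :
    (jj hb g : ℝ → ℂ) =ᵐ[mu b] fun x => g x.toNNReal := by
  have := finite_mu hb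
  exact BoundedContinuousFunction.coeFn_toLp 2 (mu b) ℂ (jc g)

/-- the weighted function on the line -/
noncomputable def ff (b : ℝ≥0 → ℝ) (g : E) (x : ℝ) : ℂ :=
  (Real.exp (-b x.toNNReal) : ℂ) * g x.toNNReal

lemma good_ff {b : ℝ≥0 → ℝ} (hb : IsWeight b) (g : E) : Good (ff b g) (Real.exp (-b 0) * ‖g‖) := by
  constructor
  · unfold ff
    apply Continuous.mul
    · apply Complex.continuous_ofReal.comp
      exact Real.continuous_exp.comp (hb.cont.comp continuous_real_toNNReal).neg
    · exact (map_continuous g).comp continuous_real_toNNReal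
  · intro x hx
    unfold ff
    rw [norm_mul, Complex.norm_real, Real.norm_eq_abs, abs_of_pos (Real.exp_pos _)]
    have h1 : Real.exp (-b x.toNNReal) ≤ Real.exp (-b 0) * Real.exp (-x) := by
      rw [← Real.exp_add]
      apply Real.exp_le_exp.2
      have := le_weight hb hx
      linarith
    calc Real.exp (-b x.toNNReal) * ‖g x.toNNReal‖ ≤ (Real.exp (-b 0) * Real.exp (-x)) * ‖g‖ :=
          mul_le_mul h1 (norm_coe g _) (norm_nonneg _) (by positivity)
      _ = _ := by ring

lemma ff_TT {b : ℝ≥0 → ℝ} (hb : IsWeight b) (g : E) {x : ℝ} (hx : 0 < x) :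
    ff b (TT b hb g) x = cc * ∫ t : ℝ, ff b g (x + t^2) := by
  unfold ff
  rw [TT_apply, mul_left_comm, ← integral_const_mul]
  congr 1
  apply integral_congr_ae
  refine ae_of_all _ fun t => ?_
  dsimp only
  unfold ker
  have h1 : (x + t^2).toNNReal = x.toNNReal + sq t := by
    rw [Real.toNNReal_add hx.le (sq_nonneg t)]
    congr 1
    ext
    rw [Real.coe_toNNReal _ (sq_nonneg t), coe_sq]
  rw [h1, ← mul_assoc, ← Complex.ofReal_mul, ← Real.exp_add]
  congr 3
  ring

lemma inner_jj {b : ℝ≥0 → ℝ} (hb : IsWeight b) (g h : E) :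
    inner ℝ (jj hb g) (jj hb h) = (∫ x in Ioi 0, conj (ff b g x) * ff b h x).re := by
  have hint : Integrable (fun x => conj (ff b g x) * ff b h x) nu := by
    have hg := good_ff hb g
    have hh := good_ff hb h
    apply (int_e.const_mul ((Real.exp (-b 0) * ‖g‖) * (Real.exp (-b 0) * ‖h‖))).mono'
    · exact ((Complex.continuous_conj.comp hg.cont).mul hh.cont).aestronglyMeasurable
    · filter_upwards [ae_restrict_mem measurableSet_Ioi] with x hx
      have hx' : 0 < x := hx
      rw [norm_mul, Complex.norm_conj]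
      have h1 := hg.bd x hx'.le
      have h2 := hh.bd x hx'.le
      have h3 : Real.exp (-b 0) * ‖h‖ * Real.exp (-x) ≤ Real.exp (-b 0) * ‖h‖ * 1 :=
        mul_le_mul_of_nonneg_left (Real.exp_le_one_iff.2 (by linarith)) hh.nonneg
      calc ‖ff b g x‖ * ‖ff b h x‖ ≤ (Real.exp (-b 0) * ‖g‖ * Real.exp (-x)) * (Real.exp (-b 0) * ‖h‖ * 1) :=
            mul_le_mul h1 (h2.trans h3) (norm_nonneg _) (by positivity)
        _ = _ := by ring
  rw [L2.inner_def]
  have h1 : ∫ a, inner ℝ ((jj hb g : ℝ → ℂ) a) ((jj hb h : ℝ → ℂ) a) ∂(mu b) =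
      ∫ a, (conj (g a.toNNReal) * h a.toNNReal).re ∂(mu b) := by
    apply integral_congr_ae
    filter_upwards [jj_ae hb g, jj_ae hb h] with x hx1 hx2
    rw [hx1, hx2, Complex.inner, mul_comm]
  rw [h1, mu, integral_withDensity_eq_integral_toReal_smul
    ((continuous_wt hb).measurable.ennreal_ofReal) (ae_of_all _ fun x => ENNReal.ofReal_lt_top)]
  have h3 : (∫ x in Ioi 0, conj (ff b g x) * ff b h x).re =
      ∫ x in Ioi 0, (conj (ff b g x) * ff b h x).re := (integral_re hint).symm
  rw [h3]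
  apply integral_congr_ae
  refine ae_of_all _ fun x => ?_
  dsimp only
  have hw : 0 ≤ wt b x := (Real.exp_pos _).le
  rw [ENNReal.toReal_ofReal hw, smul_eq_mul]
  unfold wt ff
  have e1 : conj ((Real.exp (-b x.toNNReal) : ℂ) * g x.toNNReal) * ((Real.exp (-b x.toNNReal) : ℂ) * h x.toNNReal)
      = ((Real.exp (-(2 * b x.toNNReal)) : ℝ) : ℂ) * (conj (g x.toNNReal) * h x.toNNReal) := by
    rw [map_mul, Complex.conj_ofReal, show -(2 * b x.toNNReal) = -b x.toNNReal + -b x.toNNReal by ring,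
      Real.exp_add]
    push_cast
    ring
  rw [e1, Complex.re_ofReal_mul]

lemma dissip_jj {b : ℝ≥0 → ℝ} (hb : IsWeight b) (g : E) :
    inner ℝ (jj hb g) (jj hb (TT b hb g)) ≤ 0 := by
  rw [inner_jj]
  have h1 := dissipative (good_ff hb g)
  convert h1 using 2
  apply setIntegral_congr_fun measurableSet_Ioi
  intro x hx
  dsimp only
  rw [ff_TT hb g hx]
  rfl

lemma mu_ne {b : ℝ≥0 → ℝ} (hb : IsWeight b) : mu b ≠ 0 := by
  intro h
  unfold mu at h
  rw [withDensity_eq_zero_iff ((continuous_wt hb).measurable.ennreal_ofReal).aemeasurable] at h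
  have h2 : ∀ᵐ x ∂nu, False := by
    filter_upwards [h] with x hx
    simp only [Pi.zero_apply, ENNReal.ofReal_eq_zero] at hx
    exact absurd hx (not_le.2 (Real.exp_pos _))
  rw [eventually_false_iff_eq_bot, ae_eq_bot, Measure.restrict_eq_zero] at h2
  simp at h2

lemma exists_ne {b : ℝ≥0 → ℝ} (hb : IsWeight b) : ∃ u : E, jj hb u ≠ 0 := by
  have h := isLin_BB (fun _ => 0) 0
  have hj : (((0:ℕ):ℝ) + 1) < ((((3:ℝ)) : ℂ)).re := by rw [Complex.ofReal_re]; norm_num
  refine ⟨uu h _ hj, ?_⟩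
  intro h0
  have h1 := jj_ae hb (uu h _ hj)
  rw [h0] at h1
  have h2 : ∀ᵐ x ∂(mu b), False := by
    filter_upwards [h1, Lp.coeFn_zero ℂ 2 (mu b)] with x hx hx2
    rw [hx2, uu_apply] at hx
    unfold uf at hx
    simp only [Pi.zero_apply] at hx
    exact Complex.exp_ne_zero _ hx.symm
  rw [eventually_false_iff_eq_bot, ae_eq_bot] at h2
  exact mu_ne hb h2

end Pool.Agent.R253.HQ
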