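import Pool.Agent.R253.HQ.L2
import Pool.Agent.R253.HQ.Exp

open Filter Topology MeasureTheory Set
open scoped NNReal

namespace Pool.Agent.R253.HQ

/-- complex version -/
theorem main_complex : ∃ (X : Type) (_ : NormedAddCommGroup X) (_ : NormedSpace ℂ X)
    (_ : CompleteSpace X) (T : X →L[ℂ] X),
    Tendsto (fun n : ℕ => ‖T ^ n‖ ^ (1 / (n:ℝ))) atTop (𝓝 0) ∧
    (∃ x : X, Dense (range fun n : ℕ => ((1 + T) ^ n) x)) ∧
    ¬ ∃ x : X, Dense (range fun n : ℕ => ((NormedSpace.exp T) ^ n) x) := by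
  obtain ⟨a, ha, hg⟩ := exists_weight
  refine ⟨E, inferInstance, inferInstance, inferInstance, TT (bf a) (isWeight_bf ha),
    quasinilpotent_bf ha, hg, ?_⟩
  rintro ⟨x, hx⟩
  obtain ⟨u, hu⟩ := exists_ne (isWeight_bf ha)
  have hb := isWeight_bf ha
  let j : E →L[ℝ] Lp ℂ 2 (mu (bf a)) :=
    { toFun := jj hb
      map_add' := map_add _
      map_smul' := by
        intro r v
        have h1 : r • v = (r:ℂ) • v := rfl
        rw [h1, map_smul, RingHom.id_apply]
        exact algebraMap_smul ℂ r _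
      cont := (jj hb).continuous }
  exact not_dense_exp j (TT (bf a) (isWeight_bf ha)) (dissip_jj hb) hu x hx

lemma exp_restrict {V : Type*} [NormedAddCommGroup V] [NormedSpace ℂ V] [CompleteSpace V]
    (T : V →L[ℂ] V) : NormedSpace.exp (T.restrictScalars ℝ) = (NormedSpace.exp T).restrictScalars ℝ := by
  let R : (V →L[ℂ] V) →+* (V →L[ℝ] V) :=
    { toFun := fun S => S.restrictScalars ℝ
      map_one' := rfl
      map_mul' := fun _ _ => rfl
      map_zero' := rfl
      map_add' := fun _ _ => rfl }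
  have hR : Continuous R := (ContinuousLinearMap.restrictScalarsIsometry ℂ V V ℝ ℝ).continuous
  have := NormedSpace.map_exp_of_mem_ball (𝕂 := ℝ) R hR T
    ((NormedSpace.expSeries_radius_eq_top ℝ (V →L[ℂ] V)).symm ▸ edist_lt_top _ _)
  exact this.symm

lemma pow_restrict {V : Type*} [NormedAddCommGroup V] [NormedSpace ℂ V]
    (T : V →L[ℂ] V) (n : ℕ) : (T.restrictScalars ℝ)^n = (T^n).restrictScalars ℝ := by
  induction n with
  | zero => rfl
  | succ n ih => rw [pow_succ, pow_succ, ih]; rfl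

/-- real version -/
theorem main_real : ∃ (X : Type) (_ : NormedAddCommGroup X) (_ : NormedSpace ℝ X)
    (_ : CompleteSpace X) (T : X →L[ℝ] X),
    Tendsto (fun n : ℕ => ‖T ^ n‖ ^ (1 / (n:ℝ))) atTop (𝓝 0) ∧
    (∃ x : X, Dense (range fun n : ℕ => ((1 + T) ^ n) x)) ∧
    ¬ ∃ x : X, Dense (range fun n : ℕ => ((NormedSpace.exp T) ^ n) x) := by
  obtain ⟨X, i1, i2, i3, T, h1, ⟨x, hx⟩, h3⟩ := main_complex
  refine ⟨X, i1, inferInstance, i3, T.restrictScalars ℝ, ?_, ⟨x, ?_⟩, ?_⟩
  · simp only [pow_restrict, ContinuousLinearMap.norm_restrictScalars]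
    exact h1
  · have : (1 + T.restrictScalars ℝ) = (1 + T).restrictScalars ℝ := rfl
    simp only [this, pow_restrict]
    exact hx
  · rintro ⟨y, hy⟩
    apply h3
    refine ⟨y, ?_⟩
    rw [exp_restrict] at hy
    simp only [pow_restrict] at hy
    exact hy

end Pool.Agent.R253.HQ
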