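import Pool.Agent.R253.HQ.Weights

open Filter Topology MeasureTheory Set
open scoped NNReal ZeroAtInfty

namespace Pool.Agent.R253.HQ

/-- `C₀([0,∞))` is separable -/
lemma sepE : TopologicalSpace.SeparableSpace E := by
  rw [← TopologicalSpace.isSeparable_univ_iff]
  have h := isLin_BB (fun _ => 0) 0
  set S : Set E := {w : E | ∃ (j : ℕ) (hj : (((0:ℕ):ℝ) + 1) < ((((((0:ℕ):ℝ) + 1) + j + 1 : ℝ) : ℂ)).re),
      w = uu h (((((0:ℕ):ℝ) + 1) + j + 1 : ℝ) : ℂ) hj} with hS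
  have hSc : S.Countable := by
    have hsub : S ⊆ range (fun j : ℕ => UU h (((((0:ℕ):ℝ) + 1) + j + 1 : ℝ) : ℂ)) := by
      rintro w ⟨j, hj, rfl⟩
      exact ⟨j, UU_eq h hj⟩
    exact (countable_range _).mono hsub
  have h1 : TopologicalSpace.IsSeparable (Submodule.span ℂ S : Set E) := hSc.isSeparable.span
  apply h1.closure.mono
  intro g _
  rw [Metric.mem_closure_iff]
  intro ε hε
  obtain ⟨v, hv, hgv⟩ := dense_real h g (ε := ε/2) (by positivity)
  refine ⟨v, hv, ?_⟩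
  rw [dist_eq_norm]
  linarith

/-- A dense sequence. -/
lemma exists_dense_seq : ∃ d : ℕ → E, DenseRange d := by
  have := sepE
  exact TopologicalSpace.exists_dense_seq E

/-- The requirement at stage `k`. -/
def Req (d : ℕ → E) (k : ℕ) (a : ℕ → ℝ≥0) (r : ℝ≥0) : Prop :=
  ∀ i ≤ k, ∀ j ≤ k, ∃ (n : ℕ) (F : E), (∀ x, r ≤ x → F x = 0) ∧ ‖F - d i‖ < 1 / ((k:ℝ) + 1) ∧
    ‖((1 + TT (BB a k) (isLin_BB a k).wt)^n) F - d j‖ < 1 / ((k:ℝ) + 1)

lemma Req_mono {d : ℕ → E} {k : ℕ} {a : ℕ → ℝ≥0} {r r' : ℝ≥0} (h : r ≤ r') (hr : Req d k a r) :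
    Req d k a r' := by
  intro i hi j hj
  obtain ⟨n, F, h1, h2, h3⟩ := hr i hi j hj
  exact ⟨n, F, fun x hx => h1 x (h.trans hx), h2, h3⟩

lemma exists_Req (d : ℕ → E) (k : ℕ) (a : ℕ → ℝ≥0) : ∃ r, Req d k a r := by
  have h1 : ∀ i j : ℕ, ∃ R : ℝ≥0, ∃ (n : ℕ) (F : E), (∀ x, R ≤ x → F x = 0) ∧
      ‖F - d i‖ < 1 / ((k:ℝ) + 1) ∧
      ‖((1 + TT (BB a k) (isLin_BB a k).wt)^n) F - d j‖ < 1 / ((k:ℝ) + 1) := by
    intro i j
    obtain ⟨n, F, R, h1, h2, h3⟩ := stage (isLin_BB a k) (by linarith [(Nat.cast_nonneg k : (0:ℝ) ≤ k)])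
      (d i) (d j) (ε := 1 / ((k:ℝ) + 1)) (by positivity)
    exact ⟨R, n, F, h1, h2, h3⟩
  choose R hR using h1
  refine ⟨∑ i ∈ Finset.range (k+1), ∑ j ∈ Finset.range (k+1), R i j, ?_⟩
  intro i hi j hj
  obtain ⟨n, F, h1, h2, h3⟩ := hR i j
  refine ⟨n, F, fun x hx => h1 x (le_trans ?_ hx), h2, h3⟩
  have hi' : i ∈ Finset.range (k+1) := Finset.mem_range.2 (by omega)
  have hj' : j ∈ Finset.range (k+1) := Finset.mem_range.2 (by omega)
  calc R i j ≤ ∑ j ∈ Finset.range (k+1), R i j :=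
        Finset.single_le_sum (f := fun j => R i j) (fun _ _ => zero_le) hj'
    _ ≤ _ := Finset.single_le_sum (f := fun i => ∑ j ∈ Finset.range (k+1), R i j)
        (fun _ _ => zero_le) hi'

/-- the next breakpoint -/
noncomputable def nxt (d : ℕ → E) (k : ℕ) (a : ℕ → ℝ≥0) : ℝ≥0 :=
  (exists_Req d k a).choose + k + ∑ j ∈ Finset.range k, a j

/-- partial sequences -/
noncomputable def st (d : ℕ → E) : ℕ → (ℕ → ℝ≥0)
  | 0 => 0
  | k + 1 => Function.update (st d k) k (nxt d k (st d k))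

/-- The breakpoints. -/
noncomputable def aa (d : ℕ → E) (k : ℕ) : ℝ≥0 := st d (k+1) k

lemma st_stable (d : ℕ → E) {j k : ℕ} (h : j < k) : st d k j = aa d j := by
  induction k, h using Nat.le_induction with
  | base => rfl
  | succ m hm ih =>
    have : j ≠ m := by omega
    rw [st, Function.update_of_ne this, ih]

lemma aa_eq (d : ℕ → E) (k : ℕ) : aa d k = nxt d k (st d k) := by
  unfold aa
  rw [st, Function.update_self]

lemma le_aa (d : ℕ → E) (k : ℕ) : (k : ℝ≥0) ≤ aa d k := by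
  rw [aa_eq]
  unfold nxt
  rw [add_assoc, add_left_comm]
  exact le_self_add

lemma aa_le (d : ℕ → E) {j k : ℕ} (h : j ≤ k) : aa d j ≤ aa d k := by
  rcases eq_or_lt_of_le h with rfl | h
  · exact le_rfl
  · rw [aa_eq d k]
    unfold nxt
    have h1 : aa d j ≤ ∑ j ∈ Finset.range k, st d k j := by
      rw [← st_stable d h]
      exact Finset.single_le_sum (f := fun j => st d k j) (fun _ _ => zero_le)
        (Finset.mem_range.2 h)
    exact h1.trans le_add_self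

lemma BB_st (d : ℕ → E) (k : ℕ) : BB (st d k) k = BB (aa d) k :=
  BB_congr fun _ hj => st_stable d hj

lemma Req_aa (d : ℕ → E) (k : ℕ) : Req d k (aa d) (aa d k) := by
  have h1 : Req d k (st d k) (aa d k) := by
    refine Req_mono ?_ (exists_Req d k (st d k)).choose_spec
    rw [aa_eq]
    unfold nxt
    rw [add_assoc]
    exact le_self_add
  intro i hi j hj
  obtain ⟨n, F, h2, h3, h4⟩ := h1 i hi j hj
  refine ⟨n, F, h2, h3, ?_⟩
  have h5 : TT (BB (st d k) k) (isLin_BB (st d k) k).wt = TT (BB (aa d) k) (isLin_BB (aa d) k).wt := by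
    congr 1
    exact BB_st d k
  rw [← h5]
  exact h4

/-- locality of the operator -/
lemma TT_local {a : ℕ → ℝ≥0} (ha : ∀ j : ℕ, (j : ℝ≥0) ≤ a j) (hm : ∀ j k, j ≤ k → a j ≤ a k)
    {k : ℕ} {G : E} (hG : ∀ x, a k ≤ x → G x = 0) :
    TT (bf a) (isWeight_bf ha) G = TT (BB a k) (isLin_BB a k).wt G ∧
    ∀ x, a k ≤ x → TT (bf a) (isWeight_bf ha) G x = 0 := by
  constructor
  · ext x
    rw [TT_apply, TT_apply]
    congr 1
    apply integral_congr_ae
    refine ae_of_all _ fun t => ?_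
    unfold ker
    rcases le_total (a k) (x + sq t) with h | h
    · rw [hG _ h, mul_zero, mul_zero]
    · rw [bf_eq ha (k := k) (x := x + sq t) fun j hj => h.trans (hm _ _ hj),
        bf_eq ha (k := k) (x := x) fun j hj => (le_self_add.trans h).trans (hm _ _ hj)]
  · intro x hx
    rw [TT_apply]
    have : ∀ t, ker (bf a) G x t = 0 := by
      intro t
      unfold ker
      rw [hG _ (hx.trans le_self_add), mul_zero]
    simp [this]

lemma pow_local {a : ℕ → ℝ≥0} (ha : ∀ j : ℕ, (j : ℝ≥0) ≤ a j) (hm : ∀ j k, j ≤ k → a j ≤ a k)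
    {k : ℕ} {G : E} (hG : ∀ x, a k ≤ x → G x = 0) (n : ℕ) :
    ((1 + TT (bf a) (isWeight_bf ha))^n) G = ((1 + TT (BB a k) (isLin_BB a k).wt)^n) G ∧
    ∀ x, a k ≤ x → ((1 + TT (bf a) (isWeight_bf ha))^n) G x = 0 := by
  induction n with
  | zero => exact ⟨rfl, hG⟩
  | succ n ih =>
    obtain ⟨h1, h2⟩ := ih
    obtain ⟨h3, h4⟩ := TT_local ha hm h2
    constructor
    · rw [pow_succ', pow_succ', mul_apply_eq_comp, mul_apply_eq_comp, ← h1, add_apply, add_apply, h3]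
    · intro x hx
      rw [pow_succ', mul_apply_eq_comp, add_apply, ZeroAtInftyContinuousMap.add_apply, h4 x hx]
      change ((1 + TT (bf a) (isWeight_bf ha))^n) G x + 0 = 0
      rw [h2 x hx, add_zero]

/-- Birkhoff transitivity. -/
lemma birkhoff {X : Type*} [NormedAddCommGroup X] [CompleteSpace X] {d : ℕ → X}
    (hd : DenseRange d) (U : ℕ → X → X) (hU : ∀ n, Continuous (U n))
    (h : ∀ i j : ℕ, ∀ ε : ℝ, 0 < ε → ∃ (n : ℕ) (F : X), ‖F - d i‖ < ε ∧ ‖U n F - d j‖ < ε) :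
    ∃ g : X, Dense (range fun n => U n g) := by
  let O : ℕ × ℕ → Set X := fun p => ⋃ n, (U n) ⁻¹' (Metric.ball (d p.1) (1 / ((p.2:ℝ) + 1)))
  have hO1 : ∀ p, IsOpen (O p) := fun p => isOpen_iUnion fun n => Metric.isOpen_ball.preimage (hU n)
  have hO2 : ∀ p, Dense (O p) := by
    intro p
    rw [Metric.dense_iff]
    intro x r hr
    obtain ⟨i, hi⟩ := hd.exists_dist_lt x (ε := r/2) (by positivity)
    obtain ⟨n, F, h1, h2⟩ := h i p.1 (min (r/2) (1 / ((p.2:ℝ) + 1))) (by positivity)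
    refine ⟨F, ?_, ?_⟩
    · rw [Metric.mem_ball]
      calc dist F x ≤ dist F (d i) + dist x (d i) := dist_triangle_right _ _ _
        _ < r := by
          rw [dist_eq_norm F]
          have := h1.trans_le (min_le_left _ _)
          linarith
    · refine mem_iUnion.2 ⟨n, ?_⟩
      rw [mem_preimage, mem_ball_iff_norm]
      exact h2.trans_le (min_le_right _ _)
  have hD := dense_iInter_of_isOpen hO1 hO2
  obtain ⟨g, hg⟩ := hD.nonempty
  rw [mem_iInter] at hg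
  refine ⟨g, ?_⟩
  rw [Metric.dense_iff]
  intro x r hr
  obtain ⟨i, hi⟩ := hd.exists_dist_lt x (ε := r/2) (by positivity)
  obtain ⟨m, hm⟩ := exists_nat_one_div_lt (half_pos hr)
  obtain ⟨n, hn⟩ := mem_iUnion.1 (hg (i, m))
  refine ⟨U n g, ?_, n, rfl⟩
  rw [mem_preimage, Metric.mem_ball] at hn
  rw [Metric.mem_ball]
  calc dist (U n g) x ≤ dist (U n g) (d i) + dist x (d i) := dist_triangle_right _ _ _
    _ < r := by
      have : dist (U n g) (d i) < 1 / ((m:ℝ) + 1) := hn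
      linarith

/-- There is a good sequence of breakpoints. -/
theorem exists_weight : ∃ (a : ℕ → ℝ≥0) (ha : ∀ j : ℕ, (j : ℝ≥0) ≤ a j),
    ∃ g : E, Dense (range fun n : ℕ => ((1 + TT (bf a) (isWeight_bf ha))^n) g) := by
  obtain ⟨d, hd⟩ := exists_dense_seq
  refine ⟨aa d, le_aa d, ?_⟩
  apply birkhoff hd (fun n g => ((1 + TT (bf (aa d)) (isWeight_bf (le_aa d)))^n) g)
    (fun n => ((1 + TT (bf (aa d)) (isWeight_bf (le_aa d)))^n).continuous)
  intro i j ε hε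
  obtain ⟨m, hm⟩ := exists_nat_one_div_lt hε
  obtain ⟨n, F, h1, h2, h3⟩ := Req_aa d (i + j + m) i (by omega) j (by omega)
  have hle : 1 / (((i + j + m : ℕ) : ℝ) + 1) ≤ 1 / ((m:ℝ) + 1) := by
    apply one_div_le_one_div_of_le (by positivity)
    push_cast
    have hi0 : (0:ℝ) ≤ i := Nat.cast_nonneg i
    have hj0 : (0:ℝ) ≤ j := Nat.cast_nonneg j
    linarith
  refine ⟨n, F, by linarith, ?_⟩
  have h4 := (pow_local (le_aa d) (fun j k hjk => aa_le d hjk) h1 n).1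
  rw [h4]
  linarith

end Pool.Agent.R253.HQ
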