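import Pool.Agent.R253.HQ.Dens

open Filter Topology MeasureTheory Set
open scoped NNReal ZeroAtInfty

namespace Pool.Agent.R253.HQ

/-- cutoff approximations -/
lemma exists_cutoff (F : E) {δ : ℝ} (hδ : 0 < δ) :
    ∃ (G : E) (R : ℝ≥0), (∀ x, R ≤ x → G x = 0) ∧ ‖G - F‖ ≤ δ := by
  have h1 : ∀ᶠ x : ℝ≥0 in atTop, ‖F x‖ < δ := by
    have h2 := F.zero_at_infty'
    rw [cocompact_eq_atTop] at h2
    have h3 : Tendsto (fun x : ℝ≥0 => ‖F x‖) atTop (𝓝 0) := by simpa using h2.norm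
    exact h3.eventually (gt_mem_nhds hδ)
  obtain ⟨R, hR⟩ := eventually_atTop.1 h1
  let χ : ℝ≥0 → ℝ := fun x => max 0 (min 1 ((R:ℝ) + 1 - x))
  have hχc : Continuous χ := by
    apply Continuous.max continuous_const
    apply Continuous.min continuous_const
    exact continuous_const.sub NNReal.continuous_coe
  have hχ0 : ∀ x, 0 ≤ χ x := fun x => le_max_left _ _
  have hχ1 : ∀ x, χ x ≤ 1 := fun x => max_le zero_le_one (min_le_left _ _)
  let G : E :=
    { toFun := fun x => (χ x : ℂ) * F x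
      continuous_toFun := (Complex.continuous_ofReal.comp hχc).mul (map_continuous F)
      zero_at_infty' := by
        apply squeeze_zero_norm (a := fun x => ‖F x‖)
        · intro x
          rw [norm_mul, Complex.norm_real, Real.norm_eq_abs, abs_of_nonneg (hχ0 x)]
          exact mul_le_of_le_one_left (norm_nonneg _) (hχ1 x)
        · simpa using F.zero_at_infty'.norm }
  have hG : ∀ x, G x = (χ x : ℂ) * F x := fun x => rfl
  refine ⟨G, R + 1, ?_, ?_⟩
  · intro x hx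
    have hx' : (R:ℝ) + 1 ≤ x := by exact_mod_cast hx
    have : χ x = 0 := by
      simp only [χ]
      apply max_eq_left
      apply (min_le_right _ _).trans
      linarith
    rw [hG, this]
    simp
  · apply norm_le _ hδ.le
    intro x
    rw [ZeroAtInftyContinuousMap.sub_apply, hG]
    have e : (χ x : ℂ) * F x - F x = ((χ x - 1 : ℝ) : ℂ) * F x := by push_cast; ring
    rw [e, norm_mul, Complex.norm_real, Real.norm_eq_abs]
    have habs : |χ x - 1| ≤ 1 := by
      rw [abs_le]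
      constructor <;> linarith [hχ0 x, hχ1 x]
    rcases le_total R x with hx | hx
    · calc |χ x - 1| * ‖F x‖ ≤ 1 * ‖F x‖ := mul_le_mul_of_nonneg_right habs (norm_nonneg _)
        _ ≤ δ := by rw [one_mul]; exact (hR x hx).le
    · have hx' : (x:ℝ) ≤ R := by exact_mod_cast hx
      have : χ x = 1 := by
        simp only [χ]
        rw [min_eq_left (by linarith)]
        exact max_eq_right zero_le_one
      rw [this]
      simp [hδ.le]

/-- The vectors whose orbit tends to zero. -/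
noncomputable def D1 (U : E →L[ℂ] E) : Submodule ℂ E where
  carrier := {g | Tendsto (fun n : ℕ => (U^n) g) atTop (𝓝 0)}
  add_mem' := by
    intro a b ha hb
    have := Tendsto.add ha hb
    rw [add_zero] at this
    exact this.congr fun n => (map_add _ _ _).symm
  zero_mem' := by
    change Tendsto (fun n : ℕ => (U^n) 0) atTop (𝓝 0)
    simp
  smul_mem' := by
    intro c a ha
    have := Tendsto.const_smul ha c
    rw [smul_zero] at this
    exact this.congr fun n => (map_smul _ _ _).symm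

/-- The vectors with small backward orbits. -/
noncomputable def D2 (U : E →L[ℂ] E) : Submodule ℂ E where
  carrier := {g | ∃ y : ℕ → E, Tendsto y atTop (𝓝 0) ∧ ∀ n, (U^n) (y n) = g}
  add_mem' := by
    rintro a b ⟨y, hy, hy'⟩ ⟨z, hz, hz'⟩
    refine ⟨fun n => y n + z n, by simpa using hy.add hz, fun n => ?_⟩
    rw [map_add, hy', hz']
  zero_mem' := ⟨fun _ => 0, tendsto_const_nhds, fun n => map_zero _⟩
  smul_mem' := by
    rintro c a ⟨y, hy, hy'⟩
    refine ⟨fun n => c • y n, by simpa using hy.const_smul c, fun n => ?_⟩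
    rw [map_smul, hy']

lemma one_add_pow_eig {T : E →L[ℂ] E} {u : E} {l : ℂ} (h : T u = l • u) (n : ℕ) :
    ((1 + T)^n) u = (1 + l)^n • u := by
  induction n with
  | zero => simp
  | succ n ih =>
    rw [pow_succ', mul_apply_eq_comp, ih, map_smul, add_apply, h]
    change (1+l)^n • (u + l • u) = _
    rw [← one_smul ℂ u, smul_smul, ← add_smul, smul_smul, one_smul]
    congr 1
    ring

lemma mem_D1 {T : E →L[ℂ] E} {u : E} {l : ℂ} (h : T u = l • u) (hl : ‖1 + l‖ < 1) :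
    u ∈ D1 (1 + T) := by
  change Tendsto (fun n : ℕ => ((1+T)^n) u) atTop (𝓝 0)
  simp only [one_add_pow_eig h]
  have := (tendsto_pow_atTop_nhds_zero_of_norm_lt_one hl).smul_const u
  rwa [zero_smul] at this

lemma mem_D2 {T : E →L[ℂ] E} {u : E} {l : ℂ} (h : T u = l • u) (hl : 1 < ‖1 + l‖) :
    u ∈ D2 (1 + T) := by
  have hne : (1 + l) ≠ 0 := by
    intro h0
    rw [h0, norm_zero] at hl
    linarith
  refine ⟨fun n => ((1 + l)⁻¹)^n • u, ?_, ?_⟩
  · have h1 : ‖(1 + l)⁻¹‖ < 1 := by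
      rw [norm_inv]
      exact inv_lt_one_of_one_lt₀ hl
    have := (tendsto_pow_atTop_nhds_zero_of_norm_lt_one h1).smul_const u
    rwa [zero_smul] at this
  · intro n
    rw [map_smul, one_add_pow_eig h, smul_smul, ← mul_pow, inv_mul_cancel₀ hne, one_pow, one_smul]

lemma dense_D1 {b : ℝ≥0 → ℝ} {β M : ℝ} (h : IsLin b β M) (hβ : 1 ≤ β) :
    Dense (D1 (1 + TT b h.wt) : Set E) := by
  rw [Metric.dense_iff]
  intro g r hr
  obtain ⟨v, hv, hgv⟩ := dense_real h g (ε := r/2) (by positivity)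
  refine ⟨v, ?_, ?_⟩
  · rw [mem_ball_iff_norm, norm_sub_rev]
    linarith
  · have : Submodule.span ℂ {w : E | ∃ (j : ℕ) (hj : β < (((β + j + 1 : ℝ) : ℂ)).re),
      w = uu h ((β + j + 1 : ℝ) : ℂ) hj} ≤ D1 (1 + TT b h.wt) := by
      rw [Submodule.span_le]
      rintro w ⟨j, hj, rfl⟩
      apply mem_D1 (TT_uu h (by linarith) _ hj)
      apply contracting_real
      have : (0:ℝ) ≤ j := Nat.cast_nonneg j
      linarith
    exact this hv

lemma dense_D2 {b : ℝ≥0 → ℝ} {β M : ℝ} (h : IsLin b β M) (hβ : 1 ≤ β) :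
    Dense (D2 (1 + TT b h.wt) : Set E) := by
  obtain ⟨μ₀, h1, h2⟩ := exists_expanding hβ
  apply dense_of_dual
  intro l hl
  let G : Set ℂ := {μ | β < μ.re ∧ 1 < ‖1 + lam μ‖}
  have hGo : IsOpen G := by
    rw [isOpen_iff_mem_nhds]
    intro μ hμ
    have h3 : ∀ᶠ ν : ℂ in 𝓝 μ, β < ν.re :=
      (isOpen_lt continuous_const Complex.continuous_re).mem_nhds hμ.1
    have h4 : ContinuousAt (fun ν => ‖1 + lam ν‖) μ :=
      (continuousAt_const.add (continuousAt_lam (by linarith [hμ.1]))).norm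
    have h5 : ∀ᶠ ν : ℂ in 𝓝 μ, 1 < ‖1 + lam ν‖ := h4.eventually (lt_mem_nhds hμ.2)
    filter_upwards [h3, h5] with ν a c
    exact ⟨a, c⟩
  apply eq_zero_of_open h hGo (fun μ hμ => hμ.1) (μ₀ := μ₀) ⟨h1, h2⟩
  intro μ hμ
  apply hl
  rw [UU_eq h hμ.1]
  exact mem_D2 (TT_uu h (by linarith) _ hμ.1) hμ.2

/-- The Godefroy–Shapiro step. -/
lemma stage {b : ℝ≥0 → ℝ} {β M : ℝ} (h : IsLin b β M) (hβ : 1 ≤ β) (p q : E) {ε : ℝ}
    (hε : 0 < ε) : ∃ (n : ℕ) (F : E) (R : ℝ≥0), (∀ x, R ≤ x → F x = 0) ∧ ‖F - p‖ < ε ∧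
      ‖((1 + TT b h.wt)^n) F - q‖ < ε := by
  set U := 1 + TT b h.wt with hU
  obtain ⟨p', hp', hpm⟩ := Metric.dense_iff.1 (dense_D1 h hβ) p (ε/8) (by positivity)
  obtain ⟨q', hq', y, hy, hyq⟩ := Metric.dense_iff.1 (dense_D2 h hβ) q (ε/8) (by positivity)
  rw [mem_ball_iff_norm] at hp' hq'
  have hpm' : Tendsto (fun n : ℕ => (U^n) p') atTop (𝓝 0) := hpm
  have e1 : ∀ᶠ n in atTop, ‖(U^n) p'‖ < ε/8 := by
    have := hpm'.norm
    rw [norm_zero] at this
    exact this.eventually (gt_mem_nhds (by positivity))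
  have e2 : ∀ᶠ n in atTop, ‖y n‖ < ε/8 := by
    have := hy.norm
    rw [norm_zero] at this
    exact this.eventually (gt_mem_nhds (by positivity))
  obtain ⟨n, hn1, hn2⟩ := (e1.and e2).exists
  obtain ⟨N, hN0, hN⟩ : ∃ N : ℝ, 0 ≤ N ∧ ∀ z, ‖(U^n) z‖ ≤ N * ‖z‖ :=
    ⟨‖U^n‖, norm_nonneg (U^n), (U^n).le_opNorm⟩
  obtain ⟨F, R, hF, hFF⟩ := exists_cutoff (p' + y n) (δ := ε/8 / (N + 1)) (by positivity)
  refine ⟨n, F, R, hF, ?_, ?_⟩
  · have h1 : ‖F - (p' + y n)‖ ≤ ε/8 := by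
      apply hFF.trans
      exact div_le_self (by positivity) (by linarith)
    calc ‖F - p‖ = ‖(F - (p' + y n)) + (p' - p) + y n‖ := by congr 1; abel
      _ ≤ ‖F - (p' + y n)‖ + ‖p' - p‖ + ‖y n‖ := norm_add₃_le
      _ < ε := by linarith
  · have h1 : ‖(U^n) (F - (p' + y n))‖ ≤ ε/8 := by
      calc _ ≤ N * ‖F - (p' + y n)‖ := hN _
        _ ≤ N * (ε/8 / (N + 1)) := mul_le_mul_of_nonneg_left hFF hN0
        _ ≤ ε/8 := by
            rw [mul_div_assoc', div_le_iff₀ (by positivity)]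
            nlinarith
    have h2 : (U^n) F - q = (U^n) (F - (p' + y n)) + (U^n) p' + (q' - q) := by
      rw [map_sub, map_add, hyq n]
      abel
    rw [h2]
    calc _ ≤ ‖(U^n) (F - (p' + y n))‖ + ‖(U^n) p'‖ + ‖q' - q‖ := norm_add₃_le
      _ < ε := by linarith

end Pool.Agent.R253.HQ
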