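import Pool.Agent.R253.HQ.Stage

open Filter Topology MeasureTheory Set
open scoped NNReal ZeroAtInfty

namespace Pool.Agent.R253.HQ

/-- `max (x - a) 0`. -/
noncomputable def pp (a x : ℝ≥0) : ℝ := ((x - a : ℝ≥0) : ℝ)

lemma pp_nonneg (a x : ℝ≥0) : 0 ≤ pp a x := NNReal.coe_nonneg _

lemma pp_def (a x : ℝ≥0) : pp a x = max ((x:ℝ) - a) 0 := NNReal.coe_sub_def

lemma pp_mono (a : ℝ≥0) {x y : ℝ≥0} (h : x ≤ y) : pp a x ≤ pp a y := by
  unfold pp
  exact_mod_cast tsub_le_tsub_right h a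

lemma pp_le (a x : ℝ≥0) : pp a x ≤ x := by
  unfold pp
  exact_mod_cast tsub_le_self

lemma le_pp (a x : ℝ≥0) : (x:ℝ) - a ≤ pp a x := by
  rw [pp_def]
  exact le_max_left _ _

lemma pp_eq_zero {a x : ℝ≥0} (h : x ≤ a) : pp a x = 0 := by
  unfold pp
  rw [tsub_eq_zero_of_le h]
  rfl

lemma continuous_pp (a : ℝ≥0) : Continuous (pp a) := by
  unfold pp
  exact NNReal.continuous_coe.comp (continuous_id.sub continuous_const)

/-- stage weights -/
noncomputable def BB (a : ℕ → ℝ≥0) (k : ℕ) (x : ℝ≥0) : ℝ := x + ∑ j ∈ Finset.range k, pp (a j) x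

lemma BB_succ (a : ℕ → ℝ≥0) (k : ℕ) (x : ℝ≥0) : BB a (k+1) x = BB a k x + pp (a k) x := by
  unfold BB
  rw [Finset.sum_range_succ]
  ring

lemma BB_congr {a a' : ℕ → ℝ≥0} {k : ℕ} (h : ∀ j < k, a j = a' j) : BB a k = BB a' k := by
  funext x
  unfold BB
  congr 1
  apply Finset.sum_congr rfl
  intro j hj
  rw [h j (Finset.mem_range.1 hj)]

lemma isLin_BB (a : ℕ → ℝ≥0) (k : ℕ) :
    IsLin (BB a k) ((k:ℝ) + 1) (∑ j ∈ Finset.range k, (a j : ℝ)) := by
  refine ⟨⟨?_, ?_⟩, ?_, ?_⟩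
  · unfold BB
    exact NNReal.continuous_coe.add (continuous_finsetSum _ fun j _ => continuous_pp _)
  · intro x s
    unfold BB
    have : ∑ j ∈ Finset.range k, pp (a j) x ≤ ∑ j ∈ Finset.range k, pp (a j) (x + s) :=
      Finset.sum_le_sum fun j _ => pp_mono _ le_self_add
    rw [NNReal.coe_add]
    linarith
  · intro x
    unfold BB
    have : ∑ j ∈ Finset.range k, pp (a j) x ≤ ∑ j ∈ Finset.range k, (x:ℝ) :=
      Finset.sum_le_sum fun j _ => pp_le _ _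
    rw [Finset.sum_const, Finset.card_range, nsmul_eq_mul] at this
    linarith
  · intro x
    unfold BB
    have : ∑ j ∈ Finset.range k, ((x:ℝ) - a j) ≤ ∑ j ∈ Finset.range k, pp (a j) x :=
      Finset.sum_le_sum fun j _ => le_pp _ _
    rw [Finset.sum_sub_distrib, Finset.sum_const, Finset.card_range, nsmul_eq_mul] at this
    linarith

lemma BB_eq {a : ℕ → ℝ≥0} {k m : ℕ} {x : ℝ≥0} (hkm : k ≤ m) (h : ∀ j, k ≤ j → x ≤ a j) :
    BB a m x = BB a k x := by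
  induction m, hkm using Nat.le_induction with
  | base => rfl
  | succ m hm ih => rw [BB_succ, ih, pp_eq_zero (h m hm), add_zero]

/-- the final weight -/
noncomputable def bf (a : ℕ → ℝ≥0) (x : ℝ≥0) : ℝ := BB a ⌈x⌉₊ x

lemma bf_eq {a : ℕ → ℝ≥0} (ha : ∀ j : ℕ, (j : ℝ≥0) ≤ a j) {k : ℕ} {x : ℝ≥0}
    (h : ∀ j, k ≤ j → x ≤ a j) : bf a x = BB a k x := by
  unfold bf
  have h2 : ∀ j, ⌈x⌉₊ ≤ j → x ≤ a j := fun j hj =>
    (Nat.le_ceil x).trans ((Nat.cast_le.2 hj).trans (ha j))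
  rcases le_total k ⌈x⌉₊ with hk | hk
  · exact BB_eq hk h
  · exact (BB_eq hk h2).symm

lemma bf_eq' {a : ℕ → ℝ≥0} (ha : ∀ j : ℕ, (j : ℝ≥0) ≤ a j) {k : ℕ} {x : ℝ≥0}
    (h : x ≤ k) : bf a x = BB a k x :=
  bf_eq ha fun j hj => h.trans ((Nat.cast_le.2 hj).trans (ha j))

lemma isWeight_bf {a : ℕ → ℝ≥0} (ha : ∀ j : ℕ, (j : ℝ≥0) ≤ a j) : IsWeight (bf a) := by
  constructor
  · rw [continuous_iff_continuousAt]
    intro x
    have h1 : x < ((⌈x⌉₊ + 1 : ℕ) : ℝ≥0) := by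
      push_cast
      exact (Nat.le_ceil x).trans_lt (lt_add_of_pos_right _ one_pos)
    apply ((isLin_BB a (⌈x⌉₊ + 1)).wt.cont.continuousAt).congr
    filter_upwards [gt_mem_nhds h1] with y hy
    exact (bf_eq' ha (le_of_lt hy)).symm
  · intro x s
    rw [bf_eq' ha (Nat.le_ceil (x + s)), bf_eq' ha (le_self_add.trans (Nat.le_ceil (x + s)))]
    exact (isLin_BB a _).wt.incr x s

lemma BB_incr (a : ℕ → ℝ≥0) (K m : ℕ) (x s : ℝ≥0) :
    BB a K (x + s) - BB a K x ≤ BB a (K + m) (x + s) - BB a (K + m) x := by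
  induction m with
  | zero => exact le_rfl
  | succ m ih =>
    rw [← add_assoc, BB_succ, BB_succ]
    have := pp_mono (a (K + m)) (le_self_add : x ≤ x + s)
    linarith

lemma bf_incr {a : ℕ → ℝ≥0} (ha : ∀ j : ℕ, (j : ℝ≥0) ≤ a j) (K : ℕ) (x s : ℝ≥0) :
    BB a K (x + s) - BB a K x ≤ bf a (x + s) - bf a x := by
  have h1 : x + s ≤ ((K + ⌈x + s⌉₊ : ℕ) : ℝ≥0) := by
    push_cast
    exact (Nat.le_ceil (x + s)).trans le_add_self
  rw [bf_eq' ha h1, bf_eq' ha (le_self_add.trans h1)]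
  exact BB_incr a K _ x s

lemma pp_min {a M : ℝ≥0} (h : a ≤ M) (x s : ℝ≥0) :
    (s:ℝ) ≤ (pp a (x + s) + min ((x:ℝ) + s) M) - (pp a x + min (x:ℝ) M) := by
  rw [pp_def, pp_def, NNReal.coe_add]
  have h' : (a:ℝ) ≤ M := by exact_mod_cast h
  have hs := s.coe_nonneg
  rcases le_total ((x:ℝ) + s) M with h1 | h1 <;> rcases le_total (x:ℝ) M with h2 | h2 <;>
  rcases le_total ((x:ℝ) + s - a) 0 with h3 | h3 <;> rcases le_total ((x:ℝ) - a) 0 with h4 | h4 <;>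
  simp only [h1, h2, h3, h4, min_eq_left, min_eq_right, max_eq_left, max_eq_right] <;> linarith

lemma quasi_bound {a : ℕ → ℝ≥0} (ha : ∀ j : ℕ, (j : ℝ≥0) ≤ a j) {K : ℕ} (hK : 0 < K) :
    ∃ C : ℝ, 0 < C ∧ ∀ n, ‖(TT (bf a) (isWeight_bf ha))^n‖ ≤ C * Real.sqrt (Real.pi / K) ^ n := by
  set M : ℝ≥0 := ∑ j ∈ Finset.range K, a j with hM
  have hMa : ∀ j ∈ Finset.range K, a j ≤ M := fun j hj =>
    Finset.single_le_sum (f := a) (fun _ _ => zero_le) hj
  refine ⟨Real.exp (K * M), Real.exp_pos _, fun n => ?_⟩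
  apply ContinuousLinearMap.opNorm_le_bound _ (by positivity)
  intro g
  have hK' : (0:ℝ) < K := by exact_mod_cast hK
  apply norm_le _ (by positivity)
  intro x
  have h1 := TT_pow_bound (isWeight_bf ha) (h := fun x : ℝ≥0 => K * min (x:ℝ) M) (C := K)
    (M := K * M) hK'
    (fun x => mul_le_mul_of_nonneg_left (min_le_right _ _) hK'.le)
    (by
      intro x s
      have h2 := bf_incr ha K x s
      have h3 : ∑ j ∈ Finset.range K, (s:ℝ) ≤ ∑ j ∈ Finset.range K,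
          ((pp (a j) (x + s) + min ((x:ℝ) + s) M) - (pp (a j) x + min (x:ℝ) M)) :=
        Finset.sum_le_sum fun j hj => pp_min (hMa j hj) x s
      rw [Finset.sum_const, Finset.card_range, nsmul_eq_mul, Finset.sum_sub_distrib,
        Finset.sum_add_distrib, Finset.sum_add_distrib, Finset.sum_const, Finset.sum_const,
        Finset.card_range, nsmul_eq_mul, nsmul_eq_mul] at h3
      unfold BB at h2
      have hs := s.coe_nonneg
      rw [NNReal.coe_add] at h2 ⊢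
      linarith) n g x
  refine h1.trans ?_
  have h4 : Real.exp (-(K * min (x:ℝ) M)) ≤ 1 := by
    apply Real.exp_le_one_iff.2
    have : 0 ≤ min (x:ℝ) M := le_min x.coe_nonneg M.coe_nonneg
    have := mul_nonneg hK'.le this
    linarith
  calc _ ≤ Real.sqrt (Real.pi / K) ^ n * (Real.exp (K * M) * ‖g‖) * 1 :=
        mul_le_mul_of_nonneg_left h4 (by positivity)
    _ = _ := by ring

lemma tendsto_root {u : ℕ → ℝ} (hu : ∀ n, 0 ≤ u n)
    (h : ∀ δ : ℝ, 0 < δ → ∃ C : ℝ, 0 < C ∧ ∀ n, u n ≤ C * δ^n) :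
    Tendsto (fun n : ℕ => u n ^ (1 / (n:ℝ))) atTop (𝓝 0) := by
  rw [tendsto_order]
  constructor
  · intro a ha
    exact Eventually.of_forall fun n => ha.trans_le (Real.rpow_nonneg (hu n) _)
  · intro ε hε
    obtain ⟨C, hC, hC'⟩ := h (ε/2) (by positivity)
    have h1 : Tendsto (fun n : ℕ => C ^ (1 / (n:ℝ))) atTop (𝓝 (C ^ (0:ℝ))) := by
      have h2 : Tendsto (fun n : ℕ => 1 / (n:ℝ)) atTop (𝓝 0) := tendsto_one_div_atTop_nhds_zero_nat
      exact ((Real.continuous_const_rpow hC.ne').tendsto 0).comp h2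
    rw [Real.rpow_zero] at h1
    filter_upwards [h1.eventually (gt_mem_nhds (one_lt_two)), eventually_gt_atTop 0] with n hn hn0
    have hn0' : (n:ℝ) ≠ 0 := by exact_mod_cast hn0.ne'
    calc u n ^ (1 / (n:ℝ)) ≤ (C * (ε/2)^n) ^ (1 / (n:ℝ)) :=
          Real.rpow_le_rpow (hu n) (hC' n) (by positivity)
      _ = C ^ (1 / (n:ℝ)) * (ε/2) := by
          rw [Real.mul_rpow hC.le (by positivity), ← Real.rpow_natCast, ← Real.rpow_mul (by positivity),
            mul_one_div_cancel hn0', Real.rpow_one]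
      _ < 2 * (ε/2) := mul_lt_mul_of_pos_right hn (by positivity)
      _ = ε := by ring

/-- Quasinilpotency. -/
lemma quasinilpotent_bf {a : ℕ → ℝ≥0} (ha : ∀ j : ℕ, (j : ℝ≥0) ≤ a j) :
    Tendsto (fun n : ℕ => ‖(TT (bf a) (isWeight_bf ha))^n‖ ^ (1 / (n:ℝ))) atTop (𝓝 0) := by
  apply tendsto_root (u := fun n => ‖(TT (bf a) (isWeight_bf ha))^n‖)
    (fun n => norm_nonneg ((TT (bf a) (isWeight_bf ha))^n))
  intro δ hδ
  obtain ⟨K, hK⟩ := exists_nat_gt (Real.pi / δ^2)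
  have hπ := Real.pi_pos
  have hK0 : (0:ℝ) < K := lt_trans (by positivity) hK
  obtain ⟨C, hC, hC'⟩ := quasi_bound ha (K := K) (by exact_mod_cast hK0)
  refine ⟨C, hC, fun n => (hC' n).trans ?_⟩
  apply mul_le_mul_of_nonneg_left _ hC.le
  apply pow_le_pow_left₀ (Real.sqrt_nonneg _)
  rw [Real.sqrt_le_left hδ.le, div_le_iff₀ hK0]
  rw [div_lt_iff₀ (by positivity)] at hK
  linarith

end Pool.Agent.R253.HQ
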